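import Pool.Agent.H57.Lyn.Xred

set_option autoImplicit false

/-! Triviality of cyclically presented groups reduces to triviality of `a`. -/

namespace Pool.Agent.H57.Lyn

open Function

/-- the relators `w, θ(w), .., θ^(n-1)(w)`, where `θ` sends `x_i` to `x_(i+1)` (indices modulo
`n`) -/
def cycRels (n : ℕ) [NeZero n] (w : FreeGroup (Fin n)) : Set (FreeGroup (Fin n)) :=
  {v | ∃ j : Fin n, v = FreeGroup.map (fun i => i + j) w}

/-- the cyclically presented group `G_n(w)` is trivial -/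
def CycTriv (n : ℕ) [NeZero n] (l : List (Fin n × Bool)) : Prop :=
  ∀ g : PresentedGroup (cycRels n (FreeGroup.mk l)), g = 1

/-- the word `a^i x a^(-i)` -/
def gc (n : ℕ) (i : Fin n) : List (Fin 2 × Bool) :=
  List.replicate (i : ℕ) (0, true) ++ [(1, true)] ++ List.replicate (i : ℕ) (0, false)

theorem mk_rep_true {α : Type} (c : α) (m : ℕ) :
    FreeGroup.mk (List.replicate m (c, true)) = FreeGroup.of c ^ m := by
  induction m with
  | zero => rfl
  | succ m ih =>
    rw [pow_succ', ← ih, List.replicate_succ, FreeGroup.of, FreeGroup.mul_mk]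
    rfl

theorem mk_rep_false {α : Type} (c : α) (m : ℕ) :
    FreeGroup.mk (List.replicate m (c, false)) = (FreeGroup.of c ^ m)⁻¹ := by
  induction m with
  | zero => rfl
  | succ m ih =>
    rw [pow_succ, mul_inv_rev, ← ih, List.replicate_succ, FreeGroup.of, FreeGroup.inv_mk,
      FreeGroup.mul_mk]
    rfl

theorem mk_gc (n : ℕ) (i : Fin n) : FreeGroup.mk (gc n i) =
    FreeGroup.of 0 ^ (i : ℕ) * FreeGroup.of 1 * (FreeGroup.of 0 ^ (i : ℕ))⁻¹ := by
  unfold gc
  rw [← FreeGroup.mul_mk, ← FreeGroup.mul_mk, mk_rep_true, mk_rep_false]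
  rfl

theorem lift_gc {H : Type} [Group H] (n : ℕ) (f : Fin 2 → H) (l : List (Fin n × Bool)) :
    FreeGroup.lift f (FreeGroup.mk (subst (gc n) l)) =
      FreeGroup.lift (fun i : Fin n => f 0 ^ (i : ℕ) * f 1 * (f 0 ^ (i : ℕ))⁻¹)
        (FreeGroup.mk l) := by
  rw [mk_subst, lift_comp]
  congr 2
  ext i
  rw [mk_gc]
  simp only [map_mul, map_pow, map_inv, FreeGroup.lift_apply_of]

theorem lift_map {α β : Type} {H : Type} [Group H] (f : β → H) (g : α → β) (w : FreeGroup α) :
    FreeGroup.lift f (FreeGroup.map g w) = FreeGroup.lift (fun i => f (g i)) w := by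
  have : (FreeGroup.lift f).comp (FreeGroup.map g) = FreeGroup.lift (fun i => f (g i)) := by
    ext i
    simp
  rw [← this]
  rfl

theorem lift_conj {α : Type} {H : Type} [Group H] (c : H) (f : α → H) (w : FreeGroup α) :
    FreeGroup.lift (fun i => c * f i * c⁻¹) w = c * FreeGroup.lift f w * c⁻¹ := by
  have := map_lift (MulAut.conj c).toMonoidHom f w
  exact this.symm

theorem pow_shift {H : Type} [Group H] (n : ℕ) [NeZero n] (a x : H) (ha : a ^ n = 1)
    (i j : Fin n) : a ^ ((i + j : Fin n) : ℕ) * x * (a ^ ((i + j : Fin n) : ℕ))⁻¹ =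
      a ^ (j : ℕ) * (a ^ (i : ℕ) * x * (a ^ (i : ℕ))⁻¹) * (a ^ (j : ℕ))⁻¹ := by
  have h1 : a ^ ((i + j : Fin n) : ℕ) = a ^ (j : ℕ) * a ^ (i : ℕ) := by
    rw [Fin.val_add, ← pow_add, add_comm (j : ℕ)]
    have h2 : a ^ ((i : ℕ) + j) = a ^ (((i : ℕ) + j) % n + n * (((i : ℕ) + j) / n)) := by
      rw [Nat.mod_add_div]
    rw [h2, pow_add, pow_mul, ha, one_pow, mul_one]
  rw [h1]
  group

/-- the permutations `(g, q) ↦ (f(q) g, q)` -/
def fib (P Q : Type) [Group P] : (Q → P) →* Equiv.Perm (P × Q) where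
  toFun f := ⟨fun s => (f s.2 * s.1, s.2), fun s => ((f s.2)⁻¹ * s.1, s.2),
    fun s => by simp, fun s => by simp⟩
  map_one' := by ext s <;> simp
  map_mul' f g := by ext s <;> simp [mul_assoc]

/-- the permutation `(g, q) ↦ (g, q - 1)` -/
def rot (P : Type) (n : ℕ) [NeZero n] : Equiv.Perm (P × Fin n) :=
  ⟨fun s => (s.1, s.2 - 1), fun s => (s.1, s.2 + 1), fun s => by simp, fun s => by simp⟩

open Fin.NatCast in
theorem rot_pow (P : Type) (n : ℕ) [NeZero n] (i : ℕ) (s : P × Fin n) :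
    (rot P n ^ i) s = (s.1, s.2 - (i : Fin n)) := by
  induction i with
  | zero => simp
  | succ i ih =>
    rw [pow_succ', Equiv.Perm.mul_apply, ih]
    show (s.1, s.2 - (i : Fin n) - 1) = _
    rw [Nat.cast_succ]
    congr 1
    abel

open Fin.NatCast in
theorem rot_pow_n (P : Type) (n : ℕ) [NeZero n] : rot P n ^ n = 1 := by
  ext1 s
  rw [rot_pow]
  show (s.1, s.2 - ((n : ℕ) : Fin n)) = s
  rw [Fin.natCast_self, sub_zero]

open Fin.NatCast in
theorem rot_conj (P : Type) [Group P] (n : ℕ) [NeZero n] (f : Fin n → P) (i : Fin n) :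
    rot P n ^ (i : ℕ) * fib P (Fin n) f * (rot P n ^ (i : ℕ))⁻¹ =
      fib P (Fin n) (fun q => f (q + i)) := by
  rw [mul_inv_eq_iff_eq_mul]
  ext1 s
  rw [Equiv.Perm.mul_apply, Equiv.Perm.mul_apply, rot_pow, rot_pow]
  show ((f s.2 * s.1), s.2 - ((i : ℕ) : Fin n)) =
    (f (s.2 - ((i : ℕ) : Fin n) + i) * s.1, s.2 - ((i : ℕ) : Fin n))
  rw [Fin.cast_val_eq_self, sub_add_cancel]

theorem cyc_relator (n : ℕ) [NeZero n] (w : FreeGroup (Fin n)) (q : Fin n) :
    FreeGroup.lift (fun i => (PresentedGroup.of (q + i) : PresentedGroup (cycRels n w))) w = 1 := by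
  have h1 : FreeGroup.map (fun i => i + q) w ∈ cycRels n w := ⟨q, rfl⟩
  have h2 := PresentedGroup.one_of_mem h1
  rw [← lift_of_eq_mk, lift_map] at h2
  rw [← h2]
  congr 2
  ext i
  rw [add_comm]

theorem fib_inj (P Q : Type) [Group P] : Injective (fib P Q) := by
  intro f g h
  ext q
  have h1 : fib P Q f (1, q) = fib P Q g (1, q) := by rw [h]
  have h2 : (f q * 1, q) = (g q * 1, q) := h1
  rw [mul_one, mul_one] at h2
  exact (Prod.mk.inj h2).1

theorem cyc_iff (n : ℕ) [NeZero n] (l : List (Fin n × Bool)) :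
    CycTriv n l ↔ XK n 0 (subst (gc n) l) := by
  constructor
  · intro h
    set a : PresentedGroup (relsK n (0 + 1) (FreeGroup.mk (subst (gc n) l))) :=
      PresentedGroup.of 0 with ha
    set x : PresentedGroup (relsK n (0 + 1) (FreeGroup.mk (subst (gc n) l))) :=
      PresentedGroup.of 1 with hx
    have han : a ^ n = 1 := ofK_pow_eq_one n (0 + 1) _
    have hrel : FreeGroup.lift (fun i : Fin n => a ^ (i : ℕ) * x * (a ^ (i : ℕ))⁻¹)
        (FreeGroup.mk l) = 1 := by
      rw [← liftK_eq_one n (0 + 1) (FreeGroup.mk (subst (gc n) l))]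
      exact (lift_gc n (fun i : Fin 2 => (PresentedGroup.of i :
        PresentedGroup (relsK n (0 + 1) (FreeGroup.mk (subst (gc n) l))))) l).symm
    have hF : ∀ v ∈ cycRels n (FreeGroup.mk l),
        FreeGroup.lift (fun i : Fin n => a ^ (i : ℕ) * x * (a ^ (i : ℕ))⁻¹) v = 1 := by
      rintro v ⟨j, rfl⟩
      rw [lift_map]
      have : (fun i : Fin n => a ^ ((i + j : Fin n) : ℕ) * x * (a ^ ((i + j : Fin n) : ℕ))⁻¹) =
          fun i : Fin n => a ^ (j : ℕ) * (a ^ (i : ℕ) * x * (a ^ (i : ℕ))⁻¹) * (a ^ (j : ℕ))⁻¹ :=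
        funext (fun i => pow_shift n a x han i j)
      rw [this, lift_conj, hrel, mul_one, mul_inv_cancel]
    let F : PresentedGroup (cycRels n (FreeGroup.mk l)) →*
        PresentedGroup (relsK n (0 + 1) (FreeGroup.mk (subst (gc n) l))) :=
      PresentedGroup.toGroup hF
    have h1 : F (PresentedGroup.of 0) = a ^ ((0 : Fin n) : ℕ) * x * (a ^ ((0 : Fin n) : ℕ))⁻¹ :=
      PresentedGroup.toGroup.of _
    rw [h (PresentedGroup.of 0), map_one] at h1
    have h2 : ((0 : Fin n) : ℕ) = 0 := rfl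
    rw [h2, pow_zero, one_mul, inv_one, mul_one] at h1
    exact h1.symm
  · intro h
    let P := PresentedGroup (cycRels n (FreeGroup.mk l))
    let f : Fin n → P := fun q => PresentedGroup.of q
    obtain ⟨F, hF⟩ := homK n (0 + 1) (FreeGroup.mk (subst (gc n) l))
      (![rot P n, fib P (Fin n) f] : Fin 2 → Equiv.Perm (P × Fin n))
      (rot_pow_n P n)
      (by
        refine (lift_gc n (![rot P n, fib P (Fin n) f] : Fin 2 → Equiv.Perm (P × Fin n)) l).trans ?_
        have e1 : (fun i : Fin n => (![rot P n, fib P (Fin n) f] : Fin 2 →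
            Equiv.Perm (P × Fin n)) 0 ^ (i : ℕ) * (![rot P n, fib P (Fin n) f] : Fin 2 →
            Equiv.Perm (P × Fin n)) 1 * ((![rot P n, fib P (Fin n) f] : Fin 2 →
            Equiv.Perm (P × Fin n)) 0 ^ (i : ℕ))⁻¹) =
            fun i : Fin n => fib P (Fin n) (fun q => f (q + i)) :=
          funext (fun i => rot_conj P n f i)
        rw [e1, ← map_lift (fib P (Fin n)) (fun (i : Fin n) (q : Fin n) => f (q + i))]
        have e2 : FreeGroup.lift (fun (i : Fin n) (q : Fin n) => f (q + i)) (FreeGroup.mk l) =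
            1 := by
          ext q
          have e3 := map_lift (Pi.evalMonoidHom (fun _ : Fin n => P) q)
            (fun (i : Fin n) (q : Fin n) => f (q + i)) (FreeGroup.mk l)
          have e4 : FreeGroup.lift (fun (i : Fin n) (q : Fin n) => f (q + i)) (FreeGroup.mk l) q =
            FreeGroup.lift (fun i : Fin n => f (q + i)) (FreeGroup.mk l) := e3
          rw [e4]
          exact cyc_relator n (FreeGroup.mk l) q
        rw [e2, map_one])
    have h1 : F (PresentedGroup.of 1) = fib P (Fin n) f := hF 1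
    have h2 : (PresentedGroup.of 1 :
      PresentedGroup (relsK n (0 + 1) (FreeGroup.mk (subst (gc n) l)))) = 1 := h
    rw [h2, map_one, ← map_one (fib P (Fin n))] at h1
    have h3 : f = 1 := (fib_inj P (Fin n) h1).symm
    have h4 : ∀ q : Fin n, (PresentedGroup.of q : P) = 1 := fun q => congrFun h3 q
    have h5 : MonoidHom.id P = 1 := by
      apply PresentedGroup.ext
      intro q
      exact h4 q
    intro g
    have := DFunLike.congr_fun h5 g
    exact this

/-- **Cyclically presented groups.** -/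
theorem Cyc_red_T (n : ℕ) [NeZero n] (hn : 2 ≤ n) : ManyOneReducible (CycTriv n) (T n) := by
  have h1 : ManyOneReducible (CycTriv n) (XK n 0) :=
    ⟨subst (gc n), (primrec_subst (gc n)).to_comp, fun l => cyc_iff n l⟩
  exact h1.trans (XK_red_T n 0 hn)

end Pool.Agent.H57.Lyn
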