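import Mathlib

set_option autoImplicit false

/-! Embedding lemmas: amalgams, HNN extensions, and the width three embedding. -/

namespace Pool.Agent.H57.Lyn

open Monoid Function

/-! ### Words in free products -/

section words

variable {ι : Type} {M N : ι → Type} [∀ i, Group (M i)] [∀ i, Group (N i)]

/-- apply injective homomorphisms letter by letter -/
def wmap (f : ∀ i, M i →* N i) (hf : ∀ i, Injective (f i)) (w : CoprodI.Word M) :
    CoprodI.Word N where
  toList := w.toList.map (fun l => ⟨l.1, f l.1 l.2⟩)
  ne_one := by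
    intro l hl
    rw [List.mem_map] at hl
    obtain ⟨l', hl', rfl⟩ := hl
    intro h
    have h' : f l'.1 l'.2 = 1 := h
    exact w.ne_one l' hl' ((map_eq_one_iff (f l'.1) (hf l'.1)).1 h')
  chain_ne := by
    rw [List.isChain_map]
    exact w.chain_ne

theorem wmap_prod (f : ∀ i, M i →* N i) (hf : ∀ i, Injective (f i)) (w : CoprodI.Word M) :
    (wmap f hf w).prod = CoprodI.lift (fun i => (CoprodI.of (M := N)).comp (f i)) w.prod := by
  unfold wmap CoprodI.Word.prod
  rw [map_list_prod, List.map_map, List.map_map]
  congr 1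

theorem wmap_toList_eq_nil (f : ∀ i, M i →* N i) (hf : ∀ i, Injective (f i)) (w : CoprodI.Word M)
    (h : wmap f hf w = CoprodI.Word.empty) : w = CoprodI.Word.empty := by
  have h1 : (wmap f hf w).toList = [] := by rw [h]; rfl
  have h2 : w.toList = [] := by
    have : w.toList.map (fun l => (⟨l.1, f l.1 l.2⟩ : Σ i, N i)) = [] := h1
    simpa using this
  ext1
  exact h2

theorem exists_word (x : CoprodI M) : ∃ w : CoprodI.Word M, w.prod = x := by
  classical
  exact ⟨CoprodI.Word.equiv x, CoprodI.Word.equiv.symm_apply_apply x⟩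

theorem neWord_prod_ne_one {i j : ι} (w : CoprodI.NeWord M i j) : w.prod ≠ 1 := by
  classical
  intro h
  have h1 : w.toWord = CoprodI.Word.empty := by
    apply CoprodI.Word.equiv.symm.injective
    exact h
  have h2 : w.toList = [] := congrArg CoprodI.Word.toList h1
  exact w.toList_ne_nil h2

theorem neWord_pow {i j : ι} (hij : i ≠ j) (w : CoprodI.NeWord M i j) (k : ℕ) :
    ∃ w' : CoprodI.NeWord M i j, w'.prod = w.prod ^ (k + 1) := by
  induction k with
  | zero => exact ⟨w, by simp⟩
  | succ k ih =>
    obtain ⟨w', hw'⟩ := ih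
    refine ⟨CoprodI.NeWord.append w' hij.symm w, ?_⟩
    rw [CoprodI.NeWord.append_prod, hw', ← pow_succ]

theorem neWord_zpow_ne_one {i j : ι} (hij : i ≠ j) (w : CoprodI.NeWord M i j) (k : ℤ)
    (hk : k ≠ 0) : w.prod ^ k ≠ 1 := by
  have key : ∀ m : ℕ, m ≠ 0 → w.prod ^ m ≠ 1 := by
    intro m hm
    obtain ⟨m', rfl⟩ := Nat.exists_eq_succ_of_ne_zero hm
    obtain ⟨w', hw'⟩ := neWord_pow hij w m'
    rw [Nat.succ_eq_add_one, ← hw']
    exact neWord_prod_ne_one w'
  intro h
  rcases Int.natAbs_eq k with h' | h'
  · rw [h', zpow_natCast] at h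
    exact key _ (by omega) h
  · rw [h', zpow_neg, zpow_natCast, inv_eq_one] at h
    exact key _ (by omega) h

end words

/-! ### Amalgams of two groups -/

section amalgam

/-- two groups as a family -/
def Fam (B D : Type) : Bool → Type
  | false => B
  | true => D

instance famGroup (B D : Type) [Group B] [Group D] : ∀ b, Group (Fam B D b)
  | false => inferInstanceAs (Group B)
  | true => inferInstanceAs (Group D)

/-- two homomorphisms as a family -/
def famHom {Z B D : Type} [Group Z] [Group B] [Group D] (p : Z →* B) (q : Z →* D) :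
    ∀ b, Z →* Fam B D b
  | false => p
  | true => q

theorem amalgam_exists {B D Z C : Type} [Group B] [Group D] [Group Z] [Group C]
    (p : Z →* B) (q : Z →* D) (hp : Injective p) (hq : Injective q)
    (f : C →* B) (g : C →* D) (hf : ∀ c, c ≠ 1 → f c ∉ p.range)
    (hg : ∀ c, c ≠ 1 → g c ∉ q.range) :
    ∃ (H : Type) (_ : Group H) (i : B →* H) (j : D →* H), Injective i ∧ Injective j ∧
      (∀ z, i (p z) = j (q z)) ∧
      ∃ P : CoprodI (fun _ : Bool => C) →* H, Injective P ∧
        (∀ c, P (CoprodI.of (M := fun _ : Bool => C) (i := false) c) = i (f c)) ∧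
        (∀ c, P (CoprodI.of (M := fun _ : Bool => C) (i := true) c) = j (g c)) := by
  have hφ : ∀ b, Injective (famHom p q b) := by
    intro b
    cases b
    · exact hp
    · exact hq
  have hinj : ∀ b, Injective (famHom f g b) := by
    intro b
    cases b
    · rw [injective_iff_map_eq_one]
      intro c hc
      by_contra hne
      exact hf c hne (by
        have : f c = 1 := hc
        rw [this]; exact one_mem _)
    · rw [injective_iff_map_eq_one]
      intro c hc
      by_contra hne
      exact hg c hne (by
        have : g c = 1 := hc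
        rw [this]; exact one_mem _)
  refine ⟨PushoutI (famHom p q), inferInstance, PushoutI.of (φ := famHom p q) false,
    PushoutI.of (φ := famHom p q) true, PushoutI.of_injective hφ false,
    PushoutI.of_injective hφ true, ?_,
    CoprodI.lift (fun b => (PushoutI.of (φ := famHom p q) b).comp (famHom f g b)), ?_, ?_, ?_⟩
  · intro z
    have h1 := PushoutI.of_apply_eq_base (famHom p q) false z
    have h2 := PushoutI.of_apply_eq_base (famHom p q) true z
    exact h1.trans h2.symm
  · rw [injective_iff_map_eq_one]
    intro c hc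
    obtain ⟨w, rfl⟩ := exists_word c
    have h1 : PushoutI.ofCoprodI (φ := famHom p q) (wmap (famHom f g) hinj w).prod = 1 := by
      rw [wmap_prod]
      rw [← hc, ← MonoidHom.comp_apply]
      congr 1
      apply CoprodI.ext_hom
      intro b
      ext c
      simp
    have hred : PushoutI.Reduced (famHom p q) (wmap (famHom f g) hinj w) := by
      intro l hl
      have hl' : l ∈ w.toList.map (fun l => (⟨l.1, famHom f g l.1 l.2⟩ : Σ i, Fam B D i)) := hl
      rw [List.mem_map] at hl'
      obtain ⟨l', hl'', rfl⟩ := hl'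
      have hne := w.ne_one l' hl''
      obtain ⟨b, c⟩ := l'
      cases b
      · exact hf c hne
      · exact hg c hne
    have h2 := hred.eq_empty_of_mem_range hφ (by rw [h1]; exact one_mem _)
    rw [wmap_toList_eq_nil _ _ _ h2, CoprodI.Word.prod_empty]
  · intro c
    rw [CoprodI.lift_of]
    rfl
  · intro c
    rw [CoprodI.lift_of]
    rfl

end amalgam

/-! ### HNN extensions -/

theorem hnn_exists {H E : Type} [Group H] [Group E] (P Q : E →* H) (hP : Injective P)
    (hQ : Injective Q) :
    ∃ (L : Type) (_ : Group L) (i : H →* L) (z : L), Injective i ∧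
      ∀ e, z * i (P e) * z⁻¹ = i (Q e) := by
  let φ : P.range ≃* Q.range := (MonoidHom.ofInjective hP).symm.trans (MonoidHom.ofInjective hQ)
  refine ⟨HNNExtension H P.range Q.range φ, inferInstance, HNNExtension.of, HNNExtension.t,
    HNNExtension.of_injective φ, ?_⟩
  intro e
  have h := HNNExtension.t_mul_of (φ := φ) ⟨P e, ⟨e, rfl⟩⟩
  have h2 : φ ⟨P e, ⟨e, rfl⟩⟩ = ⟨Q e, ⟨e, rfl⟩⟩ := by
    have h3 : (MonoidHom.ofInjective hP).symm ⟨P e, ⟨e, rfl⟩⟩ = e := by
      rw [MulEquiv.symm_apply_eq]
      rfl
    show (MonoidHom.ofInjective hQ) ((MonoidHom.ofInjective hP).symm ⟨P e, ⟨e, rfl⟩⟩) = _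
    rw [h3]
    rfl
  rw [h2] at h
  have h' : (HNNExtension.t : HNNExtension H P.range Q.range φ) * HNNExtension.of (P e) =
    HNNExtension.of (Q e) * HNNExtension.t := h
  rw [h', mul_inv_cancel_right]

/-! ### The width three embedding -/

theorem embedA {B : Type} [Group B] (a x : B) (σ : B →* Multiplicative ℤ) (ha : σ a = 1)
    (hx : σ x = Multiplicative.ofAdd 1) (hne : a ≠ 1) :
    ∃ (L : Type) (_ : Group L) (i : B →* L) (z : L), Injective i ∧
      i x = z * i a * z * i a * z⁻¹ * z⁻¹ := by
  classical
  let C := Subgroup.zpowers a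
  let g0 : C := ⟨a, Subgroup.mem_zpowers a⟩
  have hg0 : g0 ≠ 1 := fun h => hne (congrArg Subtype.val h)
  let D := CoprodI (fun _ : Bool => C)
  let ob : C →* D := CoprodI.of (M := fun _ : Bool => C) (i := false)
  let oc : C →* D := CoprodI.of (M := fun _ : Bool => C) (i := true)
  let w0 : CoprodI.NeWord (fun _ : Bool => C) false true :=
    CoprodI.NeWord.append (CoprodI.NeWord.singleton g0 hg0) (by simp)
      (CoprodI.NeWord.singleton g0 hg0)
  let u : D := ob g0 * oc g0
  have hu : w0.prod = u := by
    show CoprodI.NeWord.prod (CoprodI.NeWord.append _ _ _) = u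
    rw [CoprodI.NeWord.append_prod, CoprodI.NeWord.prod_singleton, CoprodI.NeWord.prod_singleton]
  have hu0 : ∀ k : ℤ, k ≠ 0 → u ^ k ≠ 1 := by
    intro k hk
    rw [← hu]
    exact neWord_zpow_ne_one (by simp) w0 k hk
  let p : Multiplicative ℤ →* B := zpowersHom B x
  let q : Multiplicative ℤ →* D := zpowersHom D u
  have hpz : ∀ z : Multiplicative ℤ, σ (p z) = z := by
    intro z
    show σ (zpowersHom B x z) = z
    rw [zpowersHom_apply, map_zpow, hx, ← ofAdd_zsmul]
    simp
  have hp : Injective p := by
    intro z z' h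
    rw [← hpz z, ← hpz z', h]
  have hq : Injective q := by
    rw [injective_iff_map_eq_one]
    intro z hz
    by_contra hne'
    have : u ^ (Multiplicative.toAdd z) = 1 := by
      rw [← zpowersHom_apply]; exact hz
    exact hu0 _ (fun h => hne' (by rw [← ofAdd_toAdd z, h]; rfl)) this
  have hfz : ∀ c : C, σ (c : B) = 1 := by
    intro c
    obtain ⟨k, hk⟩ := Subgroup.mem_zpowers_iff.1 c.2
    rw [← hk, map_zpow, ha, one_zpow]
  have hf : ∀ c : C, c ≠ 1 → C.subtype c ∉ p.range := by
    rintro c hc ⟨z, hz⟩
    have h1 : z = 1 := by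
      rw [← hpz z, hz]
      exact hfz c
    apply hc
    rw [h1, map_one] at hz
    exact Subtype.ext hz.symm
  have hg : ∀ c : C, c ≠ 1 → ob c ∉ q.range := by
    rintro c hc ⟨z, hz⟩
    have hz' : u ^ (Multiplicative.toAdd z) = ob c := by
      rw [← zpowersHom_apply]; exact hz
    have h3 : Multiplicative.toAdd z = 0 := by
      by_cases hfin : IsOfFinOrder a
      · have hcfin : IsOfFinOrder c := by
          obtain ⟨k, hk⟩ := Subgroup.mem_zpowers_iff.1 c.2
          have h1 : IsOfFinOrder (c : B) := by
            rw [← hk]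
            exact hfin.zpow
          exact Submonoid.isOfFinOrder_coe.1 h1
        obtain ⟨N, hN, hN'⟩ := hcfin.exists_pow_eq_one
        have h2 : u ^ (Multiplicative.toAdd z * N) = 1 := by
          rw [zpow_mul, hz', zpow_natCast, ← map_pow, hN', map_one]
        by_contra h0
        exact hu0 _ (mul_ne_zero h0 (by exact_mod_cast hN.ne')) h2
      · let τ : D →* C := CoprodI.lift (fun b : Bool => if b = true then MonoidHom.id C else 1)
        have hτb : ∀ c, τ (ob c) = 1 := by
          intro c
          show τ (CoprodI.of (M := fun _ : Bool => C) (i := false) c) = 1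
          rw [CoprodI.lift_of]
          rfl
        have hτc : ∀ c, τ (oc c) = c := by
          intro c
          show τ (CoprodI.of (M := fun _ : Bool => C) (i := true) c) = c
          rw [CoprodI.lift_of]
          rfl
        have h4 : g0 ^ (Multiplicative.toAdd z) = 1 := by
          have h5 := congrArg τ hz'
          rw [map_zpow, map_mul, hτb, hτc, one_mul, hτb] at h5
          exact h5
        have h6 : a ^ (Multiplicative.toAdd z) = 1 := by
          have := congrArg (Subtype.val) h4
          exact this
        by_contra h0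
        exact hfin (isOfFinOrder_iff_zpow_eq_one.2 ⟨_, h0, h6⟩)
    rw [h3, zpow_zero] at hz'
    apply hc
    apply CoprodI.of_injective (M := fun _ : Bool => C) false
    rw [map_one]
    exact hz'.symm
  obtain ⟨H, _, i, j, hi, hj, hij, P, hP, hPf, hPt⟩ :=
    amalgam_exists p q hp hq C.subtype ob hf hg
  obtain ⟨L, _, i', z, hi', hz⟩ := hnn_exists P j hP hj
  refine ⟨L, inferInstance, i'.comp i, z, hi'.comp hi, ?_⟩
  have h1 : z * i' (i a) * z⁻¹ = i' (j (ob g0)) := by
    have := hz (CoprodI.of (M := fun _ : Bool => C) (i := false) g0)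
    rw [hPf] at this
    exact this
  have h2 : z * i' (j (ob g0)) * z⁻¹ = i' (j (oc g0)) := by
    have := hz (CoprodI.of (M := fun _ : Bool => C) (i := true) g0)
    rw [hPt] at this
    exact this
  have h3 : i x = j u := by
    have := hij (Multiplicative.ofAdd 1)
    have e1 : p (Multiplicative.ofAdd 1) = x := by
      show zpowersHom B x (Multiplicative.ofAdd 1) = x
      rw [zpowersHom_apply]; simp
    have e2 : q (Multiplicative.ofAdd 1) = u := by
      show zpowersHom D u (Multiplicative.ofAdd 1) = u
      rw [zpowersHom_apply]; simp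
    rw [e1, e2] at this
    exact this
  show i' (i x) = z * i' (i a) * z * i' (i a) * z⁻¹ * z⁻¹
  rw [h3]
  show i' (j (ob g0 * oc g0)) = _
  rw [map_mul, map_mul, ← h2, ← h1]
  group

end Pool.Agent.H57.Lyn
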