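import Mathlib

set_option autoImplicit false

/-! A ping-pong lemma inside a free product: single letters and conjugates of products of two
letters by a letter. -/

namespace Pool.Agent.H57.Lyn

open Monoid Function Pointwise

section ping

variable {I : Type} [DecidableEq I] {fam : I → Type} [∀ i, Group (fam i)]
  [∀ i, DecidableEq (fam i)]

theorem fst_smul {i : I} (m : fam i) (hm : m ≠ 1) (w : CoprodI.Word fam)
    (hw : w.fstIdx ≠ some i) : (CoprodI.of m • w).fstIdx = some i := by
  rw [← CoprodI.Word.cons_eq_smul (h1 := hw) (h2 := hm)]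
  exact CoprodI.Word.fstIdx_cons _ _ _ _

theorem fst_pow {u v : I} (huv : u ≠ v) (g : fam u) (hg : g ≠ 1) (g' : fam v) (hg' : g' ≠ 1)
    (w : CoprodI.Word fam) (hv : w.fstIdx ≠ some v) (k : ℕ) :
    ((CoprodI.of g * CoprodI.of g') ^ (k + 1) • w).fstIdx = some u := by
  induction k with
  | zero =>
    rw [zero_add, pow_one, mul_smul]
    have h1 := fst_smul g' hg' w hv
    exact fst_smul g hg _ (by rw [h1]; intro h; exact huv (Option.some.inj h).symm)
  | succ k ih =>
    rw [pow_succ', mul_smul, mul_smul]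
    have h1 := fst_smul g' hg' ((CoprodI.of g * CoprodI.of g') ^ (k + 1) • w)
      (by rw [ih]; intro h; exact huv (Option.some.inj h))
    exact fst_smul g hg _ (by rw [h1]; intro h; exact huv (Option.some.inj h).symm)

theorem fst_zpow {u v : I} (huv : u ≠ v) (g : fam u) (hg : g ≠ 1) (g' : fam v) (hg' : g' ≠ 1)
    (w : CoprodI.Word fam) (hu : w.fstIdx ≠ some u) (hv : w.fstIdx ≠ some v) (z : ℤ)
    (hz : z ≠ 0) :
    ((CoprodI.of g * CoprodI.of g') ^ z • w).fstIdx = some u ∨
      ((CoprodI.of g * CoprodI.of g') ^ z • w).fstIdx = some v := by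
  rcases Int.natAbs_eq z with h | h
  · left
    obtain ⟨k, hk⟩ := Nat.exists_eq_succ_of_ne_zero (Int.natAbs_ne_zero.2 hz)
    rw [h, zpow_natCast, hk]
    exact fst_pow huv g hg g' hg' w hv k
  · right
    obtain ⟨k, hk⟩ := Nat.exists_eq_succ_of_ne_zero (Int.natAbs_ne_zero.2 hz)
    rw [h, zpow_neg, zpow_natCast, ← inv_pow, mul_inv_rev, ← map_inv, ← map_inv, hk]
    exact fst_pow huv.symm g'⁻¹ (by simpa using hg') g⁻¹ (by simpa using hg) w hu k

end ping

theorem ping {J I : Type} [Fintype J] (hJ : 3 ≤ Fintype.card J) {fam : I → Type}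
    [∀ i, Group (fam i)] {src : J → Type} [∀ j, Group (src j)]
    (f : ∀ j, src j →* CoprodI fam) (s : I) (e : fam s) (he : e ≠ 1)
    (pl : J → Prop) (t u v : J → I)
    (hpl : ∀ j, pl j → t j ≠ s ∧ (∃ m : fam (t j), m ≠ 1) ∧
      ∃ φ : src j →* fam (t j), Injective φ ∧ ∀ h, f j h = CoprodI.of (φ h))
    (hpl2 : ∀ j j', pl j → pl j' → j ≠ j' → t j ≠ t j')
    (hcj : ∀ j, ¬ pl j → u j ≠ s ∧ v j ≠ s ∧ u j ≠ v j ∧
      ∃ (g : fam (u j)) (g' : fam (v j)), g ≠ 1 ∧ g' ≠ 1 ∧ ∀ h : src j, h ≠ 1 →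
        ∃ z : ℤ, z ≠ 0 ∧ f j h =
          CoprodI.of e * (CoprodI.of g * CoprodI.of g') ^ z * (CoprodI.of e)⁻¹)
    (hcj2 : ∀ j j', ¬ pl j → ¬ pl j' → j ≠ j' → u j ≠ u j' ∧ u j ≠ v j' ∧ v j ≠ v j') :
    Injective (CoprodI.lift f) := by
  classical
  let X : J → Set (CoprodI.Word fam) := fun j =>
    if pl j then {w | w.fstIdx = some (t j)}
    else {w | ∃ w', w = CoprodI.of e • w' ∧ (w'.fstIdx = some (u j) ∨ w'.fstIdx = some (v j))}
  have hX1 : ∀ j, pl j → X j = {w | w.fstIdx = some (t j)} := fun j hj => if_pos hj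
  have hX2 : ∀ j, ¬ pl j → X j = {w | ∃ w', w = CoprodI.of e • w' ∧
    (w'.fstIdx = some (u j) ∨ w'.fstIdx = some (v j))} := fun j hj => if_neg hj
  have hfe : ∀ j, ¬ pl j → ∀ w' : CoprodI.Word fam,
      (w'.fstIdx = some (u j) ∨ w'.fstIdx = some (v j)) →
      (CoprodI.of e • w').fstIdx = some s := by
    intro j hj w' hw'
    obtain ⟨h1, h2, -⟩ := hcj j hj
    apply fst_smul e he
    rcases hw' with h | h
    · rw [h]; intro h'; exact h1 (Option.some.inj h')
    · rw [h]; intro h'; exact h2 (Option.some.inj h')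
  have hempty : ∀ i, (CoprodI.Word.empty : CoprodI.Word fam).fstIdx ≠ some i := by
    intro i
    simp [CoprodI.Word.fstIdx]
  have hnt : Nontrivial J := Fintype.one_lt_card_iff_nontrivial.1 (by omega)
  apply CoprodI.lift_injective_of_ping_pong f (α := CoprodI.Word fam) (X := X)
  · left
    rw [Cardinal.mk_fintype]
    exact_mod_cast hJ
  · intro j
    by_cases hj : pl j
    · rw [hX1 j hj]
      obtain ⟨-, ⟨m, hm⟩, -⟩ := hpl j hj
      exact ⟨CoprodI.of m • CoprodI.Word.empty, fst_smul m hm _ (hempty _)⟩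
    · rw [hX2 j hj]
      obtain ⟨-, -, -, g, -, hg, -⟩ := hcj j hj
      exact ⟨CoprodI.of e • (CoprodI.of g • CoprodI.Word.empty), _, rfl,
        Or.inl (fst_smul g hg _ (hempty _))⟩
  · intro j j' hjj'
    show Disjoint (X j) (X j')
    rw [Set.disjoint_left]
    intro w hw hw'
    by_cases hj : pl j <;> by_cases hj' : pl j'
    · rw [hX1 j hj] at hw
      rw [hX1 j' hj'] at hw'
      have hw1 : w.fstIdx = some (t j) := hw
      have hw2 : w.fstIdx = some (t j') := hw'
      rw [hw1] at hw2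
      exact hpl2 j j' hj hj' hjj' (Option.some.inj hw2)
    · rw [hX1 j hj] at hw
      rw [hX2 j' hj'] at hw'
      obtain ⟨w', rfl, h'⟩ := hw'
      have hw1 : (CoprodI.of e • w').fstIdx = some (t j) := hw
      rw [hfe j' hj' w' h'] at hw1
      exact (hpl j hj).1 (Option.some.inj hw1).symm
    · rw [hX2 j hj] at hw
      rw [hX1 j' hj'] at hw'
      obtain ⟨w', rfl, h'⟩ := hw
      have hw1 : (CoprodI.of e • w').fstIdx = some (t j') := hw'
      rw [hfe j hj w' h'] at hw1
      exact (hpl j' hj').1 (Option.some.inj hw1).symm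
    · rw [hX2 j hj] at hw
      rw [hX2 j' hj'] at hw'
      obtain ⟨w1, rfl, h1⟩ := hw
      obtain ⟨w2, h12, h2⟩ := hw'
      have h3 : w1 = w2 := smul_left_cancel _ h12
      subst h3
      obtain ⟨c1, c2, c3⟩ := hcj2 j j' hj hj' hjj'
      obtain ⟨c4, c5, c6⟩ := hcj2 j' j hj' hj hjj'.symm
      rcases h1 with h1 | h1 <;> rcases h2 with h2 | h2
      · rw [h1] at h2; exact c1 (Option.some.inj h2)
      · rw [h1] at h2; exact c2 (Option.some.inj h2)
      · rw [h1] at h2; exact c5 (Option.some.inj h2).symm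
      · rw [h1] at h2; exact c3 (Option.some.inj h2)
  · intro j j' hjj' h hh
    show f j h • X j' ⊆ X j
    rintro _ ⟨w, hw, rfl⟩
    show f j h • w ∈ X j
    by_cases hj : pl j
    · obtain ⟨hts, -, φ, hφ, hf⟩ := hpl j hj
      rw [hX1 j hj]
      show (f j h • w).fstIdx = some (t j)
      rw [hf]
      apply fst_smul (φ h) (by rw [Ne, map_eq_one_iff φ hφ]; exact hh)
      by_cases hj' : pl j'
      · rw [hX1 j' hj'] at hw
        have hw1 : w.fstIdx = some (t j') := hw
        rw [hw1]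
        intro h'
        exact hpl2 j j' hj hj' hjj' (Option.some.inj h').symm
      · rw [hX2 j' hj'] at hw
        obtain ⟨w', rfl, h'⟩ := hw
        rw [hfe j' hj' w' h']
        intro h''
        exact hts (Option.some.inj h'').symm
    · obtain ⟨hus, hvs, huv, g, g', hg, hg', hz⟩ := hcj j hj
      obtain ⟨z, hz0, hf⟩ := hz h hh
      rw [hX2 j hj, hf, mul_smul, mul_smul]
      refine ⟨_, rfl, ?_⟩
      have key : ((CoprodI.of e)⁻¹ • w).fstIdx ≠ some (u j) ∧
          ((CoprodI.of e)⁻¹ • w).fstIdx ≠ some (v j) := by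
        by_cases hj' : pl j'
        · rw [hX1 j' hj'] at hw
          have hw1 : w.fstIdx = some (t j') := hw
          have h1 : ((CoprodI.of e)⁻¹ • w).fstIdx = some s := by
            rw [← map_inv]
            apply fst_smul e⁻¹ (by simpa using he)
            rw [hw1]
            intro h'
            exact (hpl j' hj').1 (Option.some.inj h')
          rw [h1]
          exact ⟨fun h' => hus (Option.some.inj h').symm, fun h' => hvs (Option.some.inj h').symm⟩
        · rw [hX2 j' hj'] at hw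
          obtain ⟨w', rfl, h'⟩ := hw
          rw [inv_smul_smul]
          obtain ⟨c1, c2, c3⟩ := hcj2 j j' hj hj' hjj'
          obtain ⟨c4, c5, c6⟩ := hcj2 j' j hj' hj hjj'.symm
          rcases h' with h1 | h1 <;> rw [h1]
          · exact ⟨fun h' => c1 (Option.some.inj h').symm, fun h' => c5 (Option.some.inj h')⟩
          · exact ⟨fun h' => c2 (Option.some.inj h').symm, fun h' => c3 (Option.some.inj h').symm⟩
      exact fst_zpow huv g hg g' hg' _ key.1 key.2 z hz0

end Pool.Agent.H57.Lyn
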