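import Pool.Agent.H57.Lyn.Emb
import Pool.Agent.H57.Lyn.Ping

set_option autoImplicit false

/-! The universal words: every group with a nontrivial element `a` and elements `x_1 .. x_k` embeds
in a group with an element `z` such that the `x_i` are fixed words in `a` and `z`. -/

namespace Pool.Agent.H57.Lyn

open Monoid Function

/-- indices of the free factors -/
inductive Idx (k : ℕ) : Type
  | base : Idx k
  | tor : Fin (2 * k) → Idx k
  | fr : Fin k → Idx k

/-- the free factors -/
def Fm (B C : Type) (k : ℕ) : Idx k → Type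
  | Idx.base => B
  | Idx.tor _ => C
  | Idx.fr _ => Multiplicative ℤ

instance fmGroup (B C : Type) [Group B] [Group C] (k : ℕ) : ∀ i, Group (Fm B C k i)
  | Idx.base => inferInstanceAs (Group B)
  | Idx.tor _ => inferInstanceAs (Group C)
  | Idx.fr _ => inferInstanceAs (Group (Multiplicative ℤ))

/-- the index of the `j`-th letter -/
def idx (k : ℕ) (j : Fin (2 * k + 1)) : Idx k :=
  Fin.cases (motive := fun _ => Idx k) Idx.base Idx.tor j

theorem idx_inj (k : ℕ) : Injective (idx k) := by
  intro i j h
  induction i using Fin.cases with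
  | zero =>
    induction j using Fin.cases with
    | zero => rfl
    | succ j => exact absurd h (by simp [idx])
  | succ i =>
    induction j using Fin.cases with
    | zero => exact absurd h (by simp [idx])
    | succ j =>
      have : i = j := by simpa [idx] using h
      rw [this]

theorem idx_ne_fr (k : ℕ) (j : Fin (2 * k + 1)) (i : Fin k) : idx k j ≠ Idx.fr i := by
  induction j using Fin.cases with
  | zero => simp [idx]
  | succ j => simp [idx]

/-- the `j`-th copy of `C` -/
def emb {B C : Type} [Group B] [Group C] (ι : C →* B) (k : ℕ) (j : Fin (2 * k + 1)) :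
    C →* Fm B C k (idx k j) :=
  Fin.cases (motive := fun j => C →* Fm B C k (idx k j)) ι (fun _ => MonoidHom.id C) j

theorem emb_inj {B C : Type} [Group B] [Group C] (ι : C →* B) (hι : Injective ι) (k : ℕ)
    (j : Fin (2 * k + 1)) : Injective (emb ι k j) := by
  induction j using Fin.cases with
  | zero => exact hι
  | succ j => exact fun _ _ h => h

/-- index set of the free factors of the associated subgroups -/
abbrev Jx (k : ℕ) := Fin (2 * k) ⊕ (Fin k ⊕ Fin k)

/-- the free factors of the associated subgroups -/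
def Src (C : Type) (k : ℕ) : Jx k → Type
  | Sum.inl _ => C
  | Sum.inr _ => Multiplicative ℤ

instance srcGroup (C : Type) [Group C] (k : ℕ) : ∀ j, Group (Src C k j)
  | Sum.inl _ => inferInstanceAs (Group C)
  | Sum.inr _ => inferInstanceAs (Group (Multiplicative ℤ))

section

variable {B C : Type} [Group B] [Group C] (ι : C →* B) (g : C) (k : ℕ)

/-- the letter `a_j` -/
def lt (j : Fin (2 * k + 1)) : CoprodI (Fm B C k) := CoprodI.of (emb ι k j g)

/-- the element `a_{2k} a_{2i} a_{2i+1} a_{2k}^{-1}` -/
def qq (i : Fin k) : CoprodI (Fm B C k) :=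
  lt ι g k (Fin.last _) * (lt ι g k ⟨2 * i, by omega⟩ * lt ι g k ⟨2 * i + 1, by omega⟩) *
    (lt ι g k (Fin.last _))⁻¹

/-- the element `a_0 a_{2i+1} a_{2i+2} a_0^{-1}` -/
def qq' (i : Fin k) : CoprodI (Fm B C k) :=
  lt ι g k 0 * (lt ι g k ⟨2 * i + 1, by omega⟩ * lt ι g k ⟨2 * i + 2, by omega⟩) *
    (lt ι g k 0)⁻¹

/-- first family of homomorphisms -/
def f1 : ∀ j : Jx k, Src C k j →* CoprodI (Fm B C k)
  | Sum.inl j => CoprodI.of.comp (emb ι k j.castSucc)
  | Sum.inr (Sum.inl i) => CoprodI.of (M := Fm B C k) (i := Idx.fr i)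
  | Sum.inr (Sum.inr i) => zpowersHom _ (qq ι g k i)

/-- second family of homomorphisms -/
def f2 : ∀ j : Jx k, Src C k j →* CoprodI (Fm B C k)
  | Sum.inl j => CoprodI.of.comp (emb ι k j.succ)
  | Sum.inr (Sum.inl i) => zpowersHom _ (qq' ι g k i)
  | Sum.inr (Sum.inr i) => CoprodI.of (M := Fm B C k) (i := Idx.fr i)

end

theorem conj_zp {G : Type} [Group G] (e c : G) (h : Multiplicative ℤ) :
    zpowersHom G (e * c * e⁻¹) h = e * c ^ (Multiplicative.toAdd h) * e⁻¹ := by
  rw [zpowersHom_apply, conj_zpow]

theorem f1_inj {B C : Type} [Group B] [Group C] (ι : C →* B) (hι : Injective ι) (g : C)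
    (hg : g ≠ 1) (k : ℕ) (hk : 1 ≤ k) : Injective (CoprodI.lift (f1 ι g k)) := by
  have hne : ∀ j, emb ι k j g ≠ 1 := fun j => by
    rw [Ne, map_eq_one_iff _ (emb_inj ι hι k j)]; exact hg
  apply ping (J := Jx k) (I := Idx k) (by simp [Jx]; omega) (f1 ι g k) (idx k (Fin.last _))
    (emb ι k (Fin.last _) g) (hne _)
    (fun j => match j with
      | Sum.inl _ => True
      | Sum.inr (Sum.inl _) => True
      | Sum.inr (Sum.inr _) => False)
    (fun j => match j with
      | Sum.inl j => idx k j.castSucc
      | Sum.inr (Sum.inl i) => Idx.fr i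
      | Sum.inr (Sum.inr _) => Idx.base)
    (fun j => match j with
      | Sum.inl _ => Idx.base
      | Sum.inr (Sum.inl _) => Idx.base
      | Sum.inr (Sum.inr i) => idx k ⟨2 * i, by omega⟩)
    (fun j => match j with
      | Sum.inl _ => Idx.base
      | Sum.inr (Sum.inl _) => Idx.base
      | Sum.inr (Sum.inr i) => idx k ⟨2 * i + 1, by omega⟩)
  · rintro (j | i | i) hpl
    · refine ⟨?_, ⟨_, hne j.castSucc⟩, emb ι k j.castSucc, emb_inj ι hι k _, fun h => rfl⟩
      intro h
      exact (Fin.castSucc_lt_last j).ne (idx_inj k h)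
    · refine ⟨fun h => idx_ne_fr k _ _ h.symm, ⟨(Multiplicative.ofAdd 1 : Multiplicative ℤ), ?_⟩,
        MonoidHom.id (Multiplicative ℤ), fun _ _ h => h, fun h => rfl⟩
      intro h
      have : (1 : ℤ) = 0 := congrArg Multiplicative.toAdd h
      omega
    · exact absurd hpl id
  · rintro (j | i | i) (j' | i' | i') h1 h2 h3
    · intro h
      have := Fin.castSucc_injective _ (idx_inj k h)
      exact h3 (by rw [this])
    · exact idx_ne_fr k _ _
    · exact absurd h2 id
    · exact fun h => idx_ne_fr k _ _ h.symm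
    · intro h
      have : i = i' := by simpa using h
      exact h3 (by rw [this])
    · exact absurd h2 id
    · exact absurd h1 id
    · exact absurd h1 id
    · exact absurd h1 id
  · rintro (j | i | i) hpl
    · exact absurd trivial hpl
    · exact absurd trivial hpl
    · refine ⟨?_, ?_, ?_, emb ι k _ g, emb ι k _ g, hne _, hne _, ?_⟩
      · intro h
        have := congrArg Fin.val (idx_inj k h)
        simp at this
        omega
      · intro h
        have := congrArg Fin.val (idx_inj k h)
        simp at this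
        omega
      · intro h
        have := congrArg Fin.val (idx_inj k h)
        simp at this
      · intro h hh
        refine ⟨Multiplicative.toAdd (α := ℤ) h, ?_, ?_⟩
        · intro h0
          exact hh (Multiplicative.toAdd.injective h0)
        · exact conj_zp _ _ _
  · rintro (j | i | i) (j' | i' | i') h1 h2 h3
    · exact absurd trivial h1
    · exact absurd trivial h1
    · exact absurd trivial h1
    · exact absurd trivial h1
    · exact absurd trivial h1
    · exact absurd trivial h1
    · exact absurd trivial h2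
    · exact absurd trivial h2
    · have hii : (i : ℕ) ≠ i' := fun h => h3 (by rw [Fin.ext h])
      refine ⟨?_, ?_, ?_⟩
      · intro h
        have := congrArg Fin.val (idx_inj k h)
        simp at this
        omega
      · intro h
        have := congrArg Fin.val (idx_inj k h)
        simp at this
        omega
      · intro h
        have := congrArg Fin.val (idx_inj k h)
        simp at this
        omega

theorem f2_inj {B C : Type} [Group B] [Group C] (ι : C →* B) (hι : Injective ι) (g : C)
    (hg : g ≠ 1) (k : ℕ) (hk : 1 ≤ k) : Injective (CoprodI.lift (f2 ι g k)) := by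
  have hne : ∀ j, emb ι k j g ≠ 1 := fun j => by
    rw [Ne, map_eq_one_iff _ (emb_inj ι hι k j)]; exact hg
  apply ping (J := Jx k) (I := Idx k) (by simp [Jx]; omega) (f2 ι g k) (idx k 0)
    (emb ι k 0 g) (hne _)
    (fun j => match j with
      | Sum.inl _ => True
      | Sum.inr (Sum.inl _) => False
      | Sum.inr (Sum.inr _) => True)
    (fun j => match j with
      | Sum.inl j => idx k j.succ
      | Sum.inr (Sum.inl _) => Idx.base
      | Sum.inr (Sum.inr i) => Idx.fr i)
    (fun j => match j with
      | Sum.inl _ => Idx.base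
      | Sum.inr (Sum.inl i) => idx k ⟨2 * i + 1, by omega⟩
      | Sum.inr (Sum.inr _) => Idx.base)
    (fun j => match j with
      | Sum.inl _ => Idx.base
      | Sum.inr (Sum.inl i) => idx k ⟨2 * i + 2, by omega⟩
      | Sum.inr (Sum.inr _) => Idx.base)
  · rintro (j | i | i) hpl
    · refine ⟨?_, ⟨_, hne j.succ⟩, emb ι k j.succ, emb_inj ι hι k _, fun h => rfl⟩
      intro h
      exact Fin.succ_ne_zero j (idx_inj k h)
    · exact absurd hpl id
    · refine ⟨fun h => idx_ne_fr k _ _ h.symm, ⟨(Multiplicative.ofAdd 1 : Multiplicative ℤ), ?_⟩,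
        MonoidHom.id (Multiplicative ℤ), fun _ _ h => h, fun h => rfl⟩
      intro h
      have : (1 : ℤ) = 0 := congrArg Multiplicative.toAdd h
      omega
  · rintro (j | i | i) (j' | i' | i') h1 h2 h3
    · intro h
      have := Fin.succ_injective _ (idx_inj k h)
      exact h3 (by rw [this])
    · exact absurd h2 id
    · exact idx_ne_fr k _ _
    · exact absurd h1 id
    · exact absurd h1 id
    · exact absurd h1 id
    · exact fun h => idx_ne_fr k _ _ h.symm
    · exact absurd h2 id
    · intro h
      have : i = i' := by simpa using h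
      exact h3 (by rw [this])
  · rintro (j | i | i) hpl
    · exact absurd trivial hpl
    · refine ⟨?_, ?_, ?_, emb ι k _ g, emb ι k _ g, hne _, hne _, ?_⟩
      · intro h
        have := congrArg Fin.val (idx_inj k h)
        simp at this
      · intro h
        have := congrArg Fin.val (idx_inj k h)
        simp at this
      · intro h
        have := congrArg Fin.val (idx_inj k h)
        simp at this
      · intro h hh
        refine ⟨Multiplicative.toAdd (α := ℤ) h, ?_, ?_⟩
        · intro h0
          exact hh (Multiplicative.toAdd.injective h0)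
        · exact conj_zp _ _ _
    · exact absurd trivial hpl
  · rintro (j | i | i) (j' | i' | i') h1 h2 h3
    · exact absurd trivial h1
    · exact absurd trivial h1
    · exact absurd trivial h1
    · exact absurd trivial h2
    · have hii : (i : ℕ) ≠ i' := fun h => h3 (by rw [Fin.ext h])
      refine ⟨?_, ?_, ?_⟩
      · intro h
        have := congrArg Fin.val (idx_inj k h)
        simp at this
        omega
      · intro h
        have := congrArg Fin.val (idx_inj k h)
        simp at this
        omega
      · intro h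
        have := congrArg Fin.val (idx_inj k h)
        simp at this
        omega
    · exact absurd trivial h2
    · exact absurd trivial h1
    · exact absurd trivial h1
    · exact absurd trivial h1

/-- the element `z^j a z^(-j)` -/
def cj {G : Type} [Group G] (a z : G) (j : ℕ) : G := z ^ j * a * (z ^ j)⁻¹

/-- the universal word `U_i(a, z)` -/
def uw {G : Type} [Group G] (k i : ℕ) (a z : G) : G :=
  z * (cj a z (2 * k) * (cj a z (2 * i) * cj a z (2 * i + 1)) * (cj a z (2 * k))⁻¹) * z⁻¹ *
    (z⁻¹ * (a * (cj a z (2 * i + 1) * cj a z (2 * i + 2)) * a⁻¹) * z)⁻¹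

section psi

variable {B C : Type} [Group B] [Group C] (k : ℕ)

/-- the free letter -/
def hh (B C : Type) [Group B] [Group C] (k : ℕ) (i : Fin k) : CoprodI (Fm B C k) :=
  CoprodI.of (M := Fm B C k) (i := Idx.fr i) (Multiplicative.ofAdd (1 : ℤ))

/-- inclusion of the base -/
def bb (B C : Type) [Group B] [Group C] (k : ℕ) : B →* CoprodI (Fm B C k) :=
  CoprodI.of (M := Fm B C k) (i := Idx.base)

/-- the family defining the substitution `h_i ↦ x_i h_i` -/
def psiF (x : Fin k → B) : ∀ i, Fm B C k i →* CoprodI (Fm B C k)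
  | Idx.base => CoprodI.of (M := Fm B C k) (i := Idx.base)
  | Idx.tor j => CoprodI.of (M := Fm B C k) (i := Idx.tor j)
  | Idx.fr i => zpowersHom (CoprodI (Fm B C k)) (bb B C k (x i) * hh B C k i)

/-- the substitution `h_i ↦ x_i h_i` -/
def psi (x : Fin k → B) : CoprodI (Fm B C k) →* CoprodI (Fm B C k) :=
  CoprodI.lift (psiF k x)

theorem psi_base (x : Fin k → B) (b : B) : psi (C := C) k x (bb B C k b) = bb B C k b :=
  CoprodI.lift_of (psiF (C := C) k x) (i := Idx.base) b

theorem psi_tor (x : Fin k → B) (j : Fin (2 * k)) (c : C) :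
    psi (C := C) k x (CoprodI.of (M := Fm B C k) (i := Idx.tor j) c) =
      CoprodI.of (M := Fm B C k) (i := Idx.tor j) c :=
  CoprodI.lift_of (psiF (C := C) k x) (i := Idx.tor j) c

theorem psi_fr (x : Fin k → B) (i : Fin k) (c : Multiplicative ℤ) :
    psi (C := C) k x (CoprodI.of (M := Fm B C k) (i := Idx.fr i) c) =
      (bb B C k (x i) * hh B C k i) ^ (Multiplicative.toAdd c) := by
  have h := CoprodI.lift_of (psiF (C := C) k x) (i := Idx.fr i) c
  refine h.trans ?_
  exact zpowersHom_apply (CoprodI (Fm B C k)) (bb B C k (x i) * hh B C k i) c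

theorem psi_hh (x : Fin k → B) (i : Fin k) :
    psi (C := C) k x (hh B C k i) = bb B C k (x i) * hh B C k i := by
  have h := psi_fr (C := C) k x i (Multiplicative.ofAdd (1 : ℤ))
  refine h.trans ?_
  show _ ^ (1 : ℤ) = _
  rw [zpow_one]

theorem ofAdd_one_zpow (c : Multiplicative ℤ) :
    (Multiplicative.ofAdd (1 : ℤ)) ^ (Multiplicative.toAdd c) = c := by
  rw [← ofAdd_zsmul]
  simp

theorem hh_zpow (i : Fin k) (c : Multiplicative ℤ) :
    (hh B C k i) ^ (Multiplicative.toAdd c) =
      CoprodI.of (M := Fm B C k) (i := Idx.fr i) c := by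
  unfold hh
  rw [← map_zpow]
  exact congrArg _ (ofAdd_one_zpow c)

theorem psi_psi (x : Fin k → B) (w : CoprodI (Fm B C k)) :
    psi (C := C) k (fun i => (x i)⁻¹) (psi (C := C) k x w) = w := by
  have : (psi (C := C) k (fun i => (x i)⁻¹)).comp (psi (C := C) k x) =
      MonoidHom.id (CoprodI (Fm B C k)) := by
    apply CoprodI.ext_hom
    intro i
    ext c
    cases i with
    | base =>
      show psi (C := C) k (fun i => (x i)⁻¹) (psi (C := C) k x (bb B C k c)) = bb B C k c
      rw [psi_base, psi_base]
    | tor j =>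
      show psi (C := C) k (fun i => (x i)⁻¹)
        (psi (C := C) k x (CoprodI.of (M := Fm B C k) (i := Idx.tor j) c)) =
        CoprodI.of (M := Fm B C k) (i := Idx.tor j) c
      rw [psi_tor, psi_tor]
    | fr i =>
      show psi (C := C) k (fun i => (x i)⁻¹)
        (psi (C := C) k x (CoprodI.of (M := Fm B C k) (i := Idx.fr i) c)) =
        CoprodI.of (M := Fm B C k) (i := Idx.fr i) c
      rw [psi_fr, map_zpow, map_mul, psi_base, psi_hh, map_inv, mul_inv_cancel_left]
      exact hh_zpow k i c
  exact DFunLike.congr_fun this w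

theorem psi_inj (x : Fin k → B) : Injective (psi (C := C) k x) :=
  LeftInverse.injective (psi_psi k x)

end psi

/-- **Universal words.** -/
theorem embedB {B : Type} [Group B] (a : B) (ha : a ≠ 1) (k : ℕ) (hk : 1 ≤ k) (x : Fin k → B) :
    ∃ (L : Type) (_ : Group L) (i : B →* L) (z : L), Injective i ∧
      ∀ j : Fin k, i (x j) = uw k j (i a) z := by
  classical
  let C := Subgroup.zpowers a
  let g : C := ⟨a, Subgroup.mem_zpowers a⟩
  have hg : g ≠ 1 := fun h => ha (congrArg Subtype.val h)
  let ι : C →* B := C.subtype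
  have hι : Injective ι := Subtype.val_injective
  obtain ⟨L, _, i, z, hi, hz⟩ := hnn_exists (CoprodI.lift (f1 ι g k))
    ((psi (C := C) k x).comp (CoprodI.lift (f2 ι g k))) (f1_inj ι hι g hg k hk)
    ((psi_inj k x).comp (f2_inj ι hι g hg k hk))
  have hbb : Injective (bb B C k) := CoprodI.of_injective (M := Fm B C k) Idx.base
  refine ⟨L, inferInstance, i.comp (bb B C k), z, hi.comp hbb, ?_⟩
  have hlt0 : lt ι g k 0 = bb B C k a := rfl
  have hψlt : ∀ j, psi (C := C) k x (lt ι g k j) = lt ι g k j := by
    intro j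
    induction j using Fin.cases with
    | zero => rw [hlt0, psi_base]
    | succ j => exact psi_tor k x j g
  have h1 : ∀ j : Fin (2 * k), z * i (lt ι g k j.castSucc) * z⁻¹ = i (lt ι g k j.succ) := by
    intro j
    have := hz (CoprodI.of (M := Src C k) (i := Sum.inl j) g)
    rw [MonoidHom.comp_apply, CoprodI.lift_of, CoprodI.lift_of] at this
    have e2 : psi (C := C) k x (f2 ι g k (Sum.inl j) g) = lt ι g k j.succ := hψlt j.succ
    rw [e2] at this
    exact this
  have h2 : ∀ j : Fin k, z * i (hh B C k j) * z⁻¹ = i (qq' ι g k j) := by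
    intro j
    have := hz (CoprodI.of (M := Src C k) (i := Sum.inr (Sum.inl j))
      (Multiplicative.ofAdd (1 : ℤ)))
    rw [MonoidHom.comp_apply, CoprodI.lift_of, CoprodI.lift_of] at this
    have e1 : f1 ι g k (Sum.inr (Sum.inl j)) (Multiplicative.ofAdd (1 : ℤ)) = hh B C k j := rfl
    have e2 : f2 ι g k (Sum.inr (Sum.inl j)) (Multiplicative.ofAdd (1 : ℤ)) = qq' ι g k j := by
      show zpowersHom (CoprodI (Fm B C k)) (qq' ι g k j) (Multiplicative.ofAdd (1 : ℤ)) = _
      rw [zpowersHom_apply]
      simp
    have e3 : psi (C := C) k x (qq' ι g k j) = qq' ι g k j := by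
      unfold qq'
      simp only [map_mul, map_inv, hψlt]
    rw [e1, e2, e3] at this
    exact this
  have h3 : ∀ j : Fin k, z * i (qq ι g k j) * z⁻¹ = i (bb B C k (x j)) * i (hh B C k j) := by
    intro j
    have := hz (CoprodI.of (M := Src C k) (i := Sum.inr (Sum.inr j))
      (Multiplicative.ofAdd (1 : ℤ)))
    rw [MonoidHom.comp_apply, CoprodI.lift_of, CoprodI.lift_of] at this
    have e1 : f1 ι g k (Sum.inr (Sum.inr j)) (Multiplicative.ofAdd (1 : ℤ)) = qq ι g k j := by
      show zpowersHom (CoprodI (Fm B C k)) (qq ι g k j) (Multiplicative.ofAdd (1 : ℤ)) = _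
      rw [zpowersHom_apply]
      simp
    have e2 : f2 ι g k (Sum.inr (Sum.inr j)) (Multiplicative.ofAdd (1 : ℤ)) = hh B C k j := rfl
    rw [e1, e2, psi_hh, map_mul] at this
    exact this
  have h4 : ∀ (m : ℕ) (hm : m < 2 * k + 1), i (lt ι g k ⟨m, hm⟩) = cj (i (bb B C k a)) z m := by
    intro m
    induction m with
    | zero =>
      intro hm
      have : (⟨0, hm⟩ : Fin (2 * k + 1)) = 0 := rfl
      rw [this, hlt0]
      simp [cj]
    | succ m ih =>
      intro hm
      have := h1 ⟨m, by omega⟩
      have e1 : (⟨m, by omega⟩ : Fin (2 * k)).castSucc = (⟨m, by omega⟩ : Fin (2 * k + 1)) := rfl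
      have e2 : (⟨m, by omega⟩ : Fin (2 * k)).succ = (⟨m + 1, hm⟩ : Fin (2 * k + 1)) := rfl
      rw [e1, e2, ih] at this
      rw [← this]
      unfold cj
      rw [pow_succ']
      group
  intro j
  have hj := j.2
  have h5 : i (hh B C k j) = z⁻¹ * i (qq' ι g k j) * z := by
    rw [← h2]; group
  have h6 : i (bb B C k (x j)) = z * i (qq ι g k j) * z⁻¹ * (i (hh B C k j))⁻¹ := by
    rw [h3]; group
  show i (bb B C k (x j)) = uw k j (i (bb B C k a)) z
  rw [h6, h5]
  unfold qq qq' uw
  have e0 : (Fin.last (2 * k)) = (⟨2 * k, by omega⟩ : Fin (2 * k + 1)) := rfl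
  rw [e0, hlt0]
  simp only [map_mul, map_inv, h4]

end Pool.Agent.H57.Lyn
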