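import Pool.Agent.H57.Lyn.Unk

set_option autoImplicit false

/-! Several torsion letters of the same prime order. -/

namespace Pool.Agent.H57.Lyn

open Function

/-- the relators of the group `⟨a_0, .., a_r, x_1, .., x_k | a_0^n, .., a_r^n, w⟩` -/
def relsR (n r k : ℕ) (w : FreeGroup (Fin (r + 1) ⊕ Fin k)) :
    Set (FreeGroup (Fin (r + 1) ⊕ Fin k)) :=
  {v | (∃ i : Fin (r + 1), v = FreeGroup.of (Sum.inl i) ^ n) ∨ v = w}

/-- the set of words `w` in `a_0, .., a_r, x_1, .., x_k` with `a_0 = 1` in
`⟨a_0, .., a_r, x_1, .., x_k | a_0^n, .., a_r^n, w⟩` -/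
def TR (n r k : ℕ) (l : List ((Fin (r + 1) ⊕ Fin k) × Bool)) : Prop :=
  (PresentedGroup.of (Sum.inl 0) : PresentedGroup (relsR n r k (FreeGroup.mk l))) = 1

theorem ofR_pow_eq_one (n r k : ℕ) (w : FreeGroup (Fin (r + 1) ⊕ Fin k)) (i : Fin (r + 1)) :
    (PresentedGroup.of (Sum.inl i) : PresentedGroup (relsR n r k w)) ^ n = 1 := by
  have : (FreeGroup.of (Sum.inl i) ^ n : FreeGroup (Fin (r + 1) ⊕ Fin k)) ∈ relsR n r k w :=
    Or.inl ⟨i, rfl⟩
  have h := PresentedGroup.one_of_mem this
  rw [map_pow] at h
  exact h

theorem liftR_eq_one (n r k : ℕ) (w : FreeGroup (Fin (r + 1) ⊕ Fin k)) :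
    FreeGroup.lift (fun i => (PresentedGroup.of i : PresentedGroup (relsR n r k w))) w = 1 := by
  rw [lift_of_eq_mk]
  have : w ∈ relsR n r k w := Or.inr rfl
  exact PresentedGroup.one_of_mem this

theorem homR {H : Type} [Group H] (n r k : ℕ) (w : FreeGroup (Fin (r + 1) ⊕ Fin k))
    (f : Fin (r + 1) ⊕ Fin k → H) (ha : ∀ i, f (Sum.inl i) ^ n = 1)
    (hw : FreeGroup.lift f w = 1) :
    ∃ F : PresentedGroup (relsR n r k w) →* H, ∀ i, F (PresentedGroup.of i) = f i := by
  refine ⟨PresentedGroup.toGroup (f := f) ?_, fun x => PresentedGroup.toGroup.of _⟩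
  rintro t (⟨i, rfl⟩ | rfl)
  · rw [map_pow, FreeGroup.lift_apply_of]
    exact ha i
  · exact hw

/-! ### exponent sums -/

section esum

variable {α : Type} [DecidableEq α]

/-- the exponent sum of the letter `c` -/
def esum (c : α) : FreeGroup α →* Multiplicative ℤ :=
  FreeGroup.lift (fun j => if j = c then Multiplicative.ofAdd 1 else 1)

/-- number of occurrences of a signed letter -/
def cntG (c : α × Bool) (l : List (α × Bool)) : ℕ :=
  (l.flatMap (fun p => if p = c then [true] else [])).length

theorem primrec_cntG [Primcodable α] [Finite α] (c : α × Bool) : Primrec (cntG c) := by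
  have h : Primrec (fun p : α × Bool => if p = c then [true] else []) :=
    Primrec.dom_finite _
  exact Primrec.list_length.comp (Primrec.list_flatMap (f := fun l : List (α × Bool) => l)
    (g := fun _ p => if p = c then [true] else []) Primrec.id (Primrec.to₂ (h.comp Primrec.snd)))

theorem esum_mk (c : α) (l : List (α × Bool)) :
    esum c (FreeGroup.mk l) =
      Multiplicative.ofAdd ((cntG (c, true) l : ℤ) - cntG (c, false) l) := by
  induction l with
  | nil =>
    rw [← FreeGroup.one_eq_mk, map_one]
    rfl
  | cons p l ih =>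
    have h2 : FreeGroup.mk (p :: l) = FreeGroup.mk [p] * FreeGroup.mk l := by
      rw [FreeGroup.mul_mk]; rfl
    have h3 : ∀ c, cntG c (p :: l) = (if p = c then 1 else 0) + cntG c l := by
      intro c
      unfold cntG
      rw [List.flatMap_cons, List.length_append]
      congr 1
      split_ifs <;> rfl
    rw [h2, map_mul, ih, h3, h3]
    rcases p with ⟨x, b⟩
    have h4 : FreeGroup.mk [(x, false)] = (FreeGroup.of x)⁻¹ := by
      rw [FreeGroup.of, FreeGroup.inv_mk]; rfl
    have h5 : FreeGroup.mk [(x, true)] = FreeGroup.of x := rfl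
    have h6 : ∀ y : α, esum c (FreeGroup.of y) = if y = c then Multiplicative.ofAdd 1 else 1 :=
      fun y => FreeGroup.lift_apply_of
    cases b
    · rw [h4, map_inv, h6]
      by_cases hx : x = c
      · subst hx
        simp only [if_true, Prod.mk.injEq, true_and, Bool.false_eq_true, if_false]
        rw [← ofAdd_neg, ← ofAdd_add]
        congr 1
        push_cast
        ring
      · simp [hx]
    · rw [h5, h6]
      by_cases hx : x = c
      · subst hx
        simp only [if_true, Prod.mk.injEq, true_and, Bool.true_eq_false, if_false]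
        rw [← ofAdd_add]
        congr 1
        push_cast
        ring
      · simp [hx]

theorem lift_single {H : Type} [CommGroup H] (c : α) (u : H) (w : FreeGroup α) :
    FreeGroup.lift (fun j => if j = c then u else 1) w =
      u ^ (Multiplicative.toAdd (esum c w)) := by
  have h : FreeGroup.lift (fun j => if j = c then u else 1) =
      (zpowersHom H u).comp (esum c) := by
    ext i
    by_cases hi : i = c
    · simp [esum, hi]
    · simp [esum, hi]
  rw [h]
  simp [zpowersHom_apply]

theorem lift_double {H : Type} [CommGroup H] (c d : α) (u v : H) (w : FreeGroup α) :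
    FreeGroup.lift (fun j => (if j = c then u else 1) * (if j = d then v else 1)) w =
      u ^ (Multiplicative.toAdd (esum c w)) * v ^ (Multiplicative.toAdd (esum d w)) := by
  have h : FreeGroup.lift (fun j => (if j = c then u else 1) * (if j = d then v else 1)) =
      FreeGroup.lift (fun j => if j = c then u else 1) *
        FreeGroup.lift (fun j => if j = d then v else 1) := by
    ext i
    simp
  rw [h, MonoidHom.mul_apply, lift_single, lift_single]

end esum

theorem primrecPred_forall {α : Type} [Primcodable α] (r : ℕ) (P : Fin r → α → Prop)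
    (h : ∀ i, PrimrecPred (P i)) : PrimrecPred (fun x => ∀ i, P i x) := by
  induction r with
  | zero =>
    have : PrimrecPred (fun _ : α => True) := ⟨inferInstance, Primrec.const true⟩
    exact this.of_eq (fun x => by simp)
  | succ r ih =>
    have h1 := ih (fun i => P i.succ) (fun i => h i.succ)
    exact ((h 0).and h1).of_eq (fun x => by rw [Fin.forall_fin_succ])

/-! ### conjugating several elements of the same order -/

theorem cyc {G : Type} [Group G] (g : G) (n : ℕ) (h : orderOf g = n) :
    ∃ P : Multiplicative (ZMod n) →* G, Injective P ∧ P (Multiplicative.ofAdd 1) = g := by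
  have h0 : g ^ n = 1 := by rw [← h]; exact pow_orderOf_eq_one g
  let f : ℤ →+ Additive G := zmultiplesHom (Additive G) (Additive.ofMul g)
  have hf : f n = 0 := by
    show (n : ℤ) • Additive.ofMul g = 0
    rw [natCast_zsmul, ← ofMul_pow, h0]
    rfl
  let P' : ZMod n →+ Additive G := ZMod.lift n ⟨f, hf⟩
  have hP' : Injective P' := by
    rw [ZMod.lift_injective]
    intro m hm
    have h1 : g ^ m = 1 := by
      have : m • Additive.ofMul g = 0 := hm
      rw [← ofMul_zpow] at this
      exact this
    rw [ZMod.intCast_zmod_eq_zero_iff_dvd, ← h]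
    exact orderOf_dvd_iff_zpow_eq_one.2 h1
  refine ⟨AddMonoidHom.toMultiplicativeLeft P', hP', ?_⟩
  show Additive.toMul (P' 1) = g
  have h1 : P' ((1 : ℤ) : ZMod n) = f 1 := ZMod.lift_coe n ⟨f, hf⟩ 1
  rw [Int.cast_one] at h1
  rw [h1]
  show Additive.toMul ((1 : ℤ) • Additive.ofMul g) = g
  rw [one_zsmul]
  rfl

theorem embedC {B : Type} [Group B] (a : B) (n : ℕ) (ha : orderOf a = n) (r : ℕ)
    (b : Fin r → B) (hb : ∀ j, orderOf (b j) = n) :
    ∃ (L : Type) (_ : Group L) (i : B →* L) (y : Fin r → L), Injective i ∧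
      ∀ j, y j * i a * (y j)⁻¹ = i (b j) := by
  induction r with
  | zero => exact ⟨B, inferInstance, MonoidHom.id B, Fin.elim0, injective_id, fun j => j.elim0⟩
  | succ r ih =>
    obtain ⟨L, _, i, y, hi, hy⟩ := ih (fun j => b j.succ) (fun j => hb j.succ)
    obtain ⟨P, hP, hP1⟩ := cyc (i a) n (by rw [orderOf_injective i hi, ha])
    obtain ⟨Q, hQ, hQ1⟩ := cyc (i (b 0)) n (by rw [orderOf_injective i hi, hb])
    obtain ⟨L', _, i', z, hi', hz⟩ := hnn_exists P Q hP hQ
    refine ⟨L', inferInstance, i'.comp i, Fin.cons z (fun j => i' (y j)), hi'.comp hi, ?_⟩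
    intro j
    induction j using Fin.cases with
    | zero =>
      have := hz (Multiplicative.ofAdd 1)
      rw [hP1, hQ1] at this
      exact this
    | succ j =>
      rw [Fin.cons_succ]
      show i' (y j) * i' (i a) * (i' (y j))⁻¹ = i' (i (b j.succ))
      rw [← map_inv, ← map_mul, ← map_mul, hy j]

/-! ### which torsion letters survive -/

section surv

variable {p r k : ℕ} [Fact p.Prime]

/-- a torsion letter whose exponent sum is divisible by `p` survives -/
theorem survive_div (w : FreeGroup (Fin (r + 1) ⊕ Fin k)) (i : Fin (r + 1))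
    (hi : ((Multiplicative.toAdd (esum (Sum.inl i) w) : ℤ) : ZMod p) = 0) :
    (PresentedGroup.of (Sum.inl i) : PresentedGroup (relsR p r k w)) ≠ 1 := by
  obtain ⟨F, hF⟩ := homR p r k w
    (fun j => if j = Sum.inl i then (Multiplicative.ofAdd (1 : ZMod p)) else 1)
    (by
      intro j
      split_ifs
      · rw [← ofAdd_nsmul, ← ofAdd_zero]; congr 1; simp
      · exact one_pow _)
    (by
      rw [lift_single, ← ofAdd_zsmul, ← ofAdd_zero]
      congr 1
      rw [zsmul_eq_mul, hi, zero_mul])
  intro h
  have h1 := hF (Sum.inl i)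
  rw [h, map_one, if_pos rfl, ← ofAdd_zero] at h1
  exact zero_ne_one (Multiplicative.ofAdd.injective h1)

/-- if the exponent sum of another torsion letter is not divisible by `p` then `a_0` survives -/
theorem survive_zero (w : FreeGroup (Fin (r + 1) ⊕ Fin k)) (i : Fin r)
    (hi : ((Multiplicative.toAdd (esum (Sum.inl i.succ) w) : ℤ) : ZMod p) ≠ 0) :
    (PresentedGroup.of (Sum.inl 0) : PresentedGroup (relsR p r k w)) ≠ 1 := by
  set s0 : ZMod p := ((Multiplicative.toAdd (esum (Sum.inl 0) w) : ℤ) : ZMod p) with hs0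
  set s1 : ZMod p := ((Multiplicative.toAdd (esum (Sum.inl i.succ) w) : ℤ) : ZMod p) with hs1
  obtain ⟨F, hF⟩ := homR p r k w
    (fun j => (if j = Sum.inl 0 then (Multiplicative.ofAdd (1 : ZMod p)) else 1) *
      (if j = Sum.inl i.succ then (Multiplicative.ofAdd (-s0 / s1 : ZMod p)) else 1))
    (by
      intro j
      rw [mul_pow]
      have h1 : ∀ u : ZMod p, (Multiplicative.ofAdd u) ^ p = 1 := by
        intro u
        rw [← ofAdd_nsmul, ← ofAdd_zero]; congr 1; simp
      split_ifs <;> simp [h1])
    (by
      rw [lift_double, ← ofAdd_zsmul, ← ofAdd_zsmul, ← ofAdd_add, ← ofAdd_zero]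
      congr 1
      rw [zsmul_eq_mul, zsmul_eq_mul, ← hs0, ← hs1]
      field_simp
      ring)
  intro h
  have h1 := hF (Sum.inl 0)
  have h2 : (Sum.inl 0 : Fin (r + 1) ⊕ Fin k) ≠ Sum.inl i.succ := by
    intro h
    exact (Fin.succ_ne_zero i) (Sum.inl.inj h).symm
  rw [h, map_one, if_pos rfl, if_neg h2, mul_one, ← ofAdd_zero] at h1
  exact zero_ne_one (Multiplicative.ofAdd.injective h1)

end surv

/-! ### reductions -/

/-- words for the substitution of the torsion letters by conjugates of `a` -/
def gR (r k : ℕ) : Fin (r + 1) ⊕ Fin k → List (Fin (r + k + 1) × Bool) :=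
  Sum.elim (Fin.cases [(0, true)]
    (fun i : Fin r => [((Fin.castAdd k i).succ, true), (0, true), ((Fin.castAdd k i).succ, false)]))
    (fun j : Fin k => [((Fin.natAdd r j).succ, true)])

theorem lift_gR {H : Type} [Group H] (r k : ℕ) (f : Fin (r + k + 1) → H)
    (l : List ((Fin (r + 1) ⊕ Fin k) × Bool)) :
    FreeGroup.lift f (FreeGroup.mk (subst (gR r k) l)) =
      FreeGroup.lift (Sum.elim (Fin.cases (f 0) (fun i : Fin r =>
        f (Fin.castAdd k i).succ * f 0 * (f (Fin.castAdd k i).succ)⁻¹) : Fin (r + 1) → H)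
        (fun j : Fin k => f (Fin.natAdd r j).succ)) (FreeGroup.mk l) := by
  rw [mk_subst, lift_comp]
  congr 2
  ext i
  rcases i with i | j
  · induction i using Fin.cases with
    | zero =>
      show FreeGroup.lift f (FreeGroup.mk [(0, true)]) = f 0
      simp
    | succ i =>
      show FreeGroup.lift f (FreeGroup.mk [((Fin.castAdd k i).succ, true), (0, true),
        ((Fin.castAdd k i).succ, false)]) = _
      simp [mul_assoc]
  · show FreeGroup.lift f (FreeGroup.mk [((Fin.natAdd r j).succ, true)]) = _
    simp

theorem TR_iff_TK (p r k : ℕ) [Fact p.Prime] (l : List ((Fin (r + 1) ⊕ Fin k) × Bool))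
    (hC : ∀ i : Fin r, ((Multiplicative.toAdd (esum (Sum.inl i.succ) (FreeGroup.mk l)) : ℤ) :
      ZMod p) = 0) :
    TR p r k l ↔ TK p (r + k) (subst (gR r k) l) := by
  have hp : p.Prime := Fact.out
  constructor
  · intro h
    obtain ⟨F, hF⟩ := homR p r k (FreeGroup.mk l)
      (Sum.elim (Fin.cases (PresentedGroup.of 0) (fun i : Fin r =>
        PresentedGroup.of (Fin.castAdd k i).succ * PresentedGroup.of 0 *
          (PresentedGroup.of (Fin.castAdd k i).succ)⁻¹) : Fin (r + 1) →
            PresentedGroup (relsK p (r + k) (FreeGroup.mk (subst (gR r k) l))))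
        (fun j : Fin k => PresentedGroup.of (Fin.natAdd r j).succ))
      (by
        intro i
        induction i using Fin.cases with
        | zero => exact ofK_pow_eq_one p (r + k) _
        | succ i =>
          show (PresentedGroup.of (Fin.castAdd k i).succ * PresentedGroup.of 0 *
            (PresentedGroup.of (Fin.castAdd k i).succ)⁻¹) ^ p = 1
          rw [conj_pow, ofK_pow_eq_one, mul_one, mul_inv_cancel])
      (by
        rw [← lift_gR r k (fun i => PresentedGroup.of i)]
        exact liftK_eq_one p (r + k) _)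
    have h1 := hF (Sum.inl 0)
    have h2 : (PresentedGroup.of (Sum.inl 0) : PresentedGroup (relsR p r k (FreeGroup.mk l))) = 1 :=
      h
    rw [h2, map_one] at h1
    exact h1.symm
  · intro h
    by_contra hne
    have hne' : (PresentedGroup.of (Sum.inl 0) : PresentedGroup (relsR p r k (FreeGroup.mk l))) ≠ 1 :=
      hne
    obtain ⟨L, _, i, y, hi, hy⟩ := embedC
      (PresentedGroup.of (Sum.inl 0) : PresentedGroup (relsR p r k (FreeGroup.mk l))) p
      (orderOf_eq_prime (ofR_pow_eq_one p r k _ 0) hne') r
      (fun j => PresentedGroup.of (Sum.inl j.succ))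
      (fun j => orderOf_eq_prime (ofR_pow_eq_one p r k _ _) (survive_div _ _ (hC j)))
    obtain ⟨F, hF⟩ := homK p (r + k) (FreeGroup.mk (subst (gR r k) l))
      (Fin.cases (i (PresentedGroup.of (Sum.inl 0)))
        (fun j : Fin (r + k) => Fin.addCases (fun j => y j)
          (fun j => i (PresentedGroup.of (Sum.inr j))) j) : Fin (r + k + 1) → L)
      (by
        show (i (PresentedGroup.of (Sum.inl 0))) ^ p = 1
        rw [← map_pow, ofR_pow_eq_one, map_one])
      (by
        rw [lift_gR]
        have : (Sum.elim (Fin.cases (i (PresentedGroup.of (Sum.inl 0))) (fun j : Fin r =>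
            i (PresentedGroup.of (Sum.inl j.succ))) : Fin (r + 1) → L)
            (fun j : Fin k => i (PresentedGroup.of (Sum.inr j)))) =
            fun j => i (PresentedGroup.of j) := by
          ext j
          rcases j with j | j
          · induction j using Fin.cases with
            | zero => rfl
            | succ j => rfl
          · rfl
        rw [← map_one i, ← liftR_eq_one p r k (FreeGroup.mk l), map_lift, ← this]
        congr 2
        ext j
        rcases j with j | j
        · induction j using Fin.cases with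
          | zero => rfl
          | succ j =>
            show Fin.addCases (fun j => y j) (fun j => i (PresentedGroup.of (Sum.inr j)))
              (Fin.castAdd k j) * i (PresentedGroup.of (Sum.inl 0)) *
              (Fin.addCases (fun j => y j) (fun j => i (PresentedGroup.of (Sum.inr j)))
              (Fin.castAdd k j))⁻¹ = i (PresentedGroup.of (Sum.inl j.succ))
            rw [Fin.addCases_left]
            exact hy j
        · show Fin.addCases (fun j => y j) (fun j => i (PresentedGroup.of (Sum.inr j)))
              (Fin.natAdd r j) = i (PresentedGroup.of (Sum.inr j))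
          rw [Fin.addCases_right])
    have h1 := hF 0
    have h2 : (PresentedGroup.of 0 :
      PresentedGroup (relsK p (r + k) (FreeGroup.mk (subst (gR r k) l)))) = 1 := h
    rw [h2, map_one] at h1
    have h3 : i (PresentedGroup.of (Sum.inl 0)) = 1 := h1.symm
    rw [← map_one i] at h3
    exact hne' (hi h3)

theorem not_TK_nil (n k : ℕ) (hn : 2 ≤ n) : ¬ TK n k [] := by
  intro h
  obtain ⟨F, hF⟩ := homK n k (FreeGroup.mk [])
    (fun j => if j = 0 then Multiplicative.ofAdd (1 : ZMod n) else 1)
    (by rw [if_pos rfl, ← ofAdd_nsmul, ← ofAdd_zero]; congr 1; simp)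
    (by rw [← FreeGroup.one_eq_mk]; exact map_one _)
  have h' : (PresentedGroup.of 0 : PresentedGroup (relsK n k (FreeGroup.mk []))) = 1 := h
  have h1 := hF 0
  rw [h', map_one, if_pos rfl, ← ofAdd_zero] at h1
  have : Nontrivial (ZMod n) := ZMod.nontrivial_iff.2 (by omega)
  exact zero_ne_one (Multiplicative.ofAdd.injective h1)

theorem not_TR_nil (n r k : ℕ) (hn : 2 ≤ n) : ¬ TR n r k [] := by
  intro h
  obtain ⟨F, hF⟩ := homR n r k (FreeGroup.mk [])
    (fun j => if j = Sum.inl 0 then Multiplicative.ofAdd (1 : ZMod n) else 1)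
    (by
      intro j
      split_ifs
      · rw [← ofAdd_nsmul, ← ofAdd_zero]; congr 1; simp
      · exact one_pow _)
    (by rw [← FreeGroup.one_eq_mk]; exact map_one _)
  have h' : (PresentedGroup.of (Sum.inl 0) :
    PresentedGroup (relsR n r k (FreeGroup.mk []))) = 1 := h
  have h1 := hF (Sum.inl 0)
  rw [h', map_one, if_pos rfl, ← ofAdd_zero] at h1
  have : Nontrivial (ZMod n) := ZMod.nontrivial_iff.2 (by omega)
  exact zero_ne_one (Multiplicative.ofAdd.injective h1)

/-- all exponent sums of `a_1, .., a_r` are divisible by `p` -/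
def Div (p r k : ℕ) (l : List ((Fin (r + 1) ⊕ Fin k) × Bool)) : Prop :=
  ∀ i : Fin r, cntG (Sum.inl i.succ, true) l % p = cntG (Sum.inl i.succ, false) l % p

instance (p r k : ℕ) : DecidablePred (Div p r k) := fun l => by unfold Div; infer_instance

theorem div_iff (p r k : ℕ) (l : List ((Fin (r + 1) ⊕ Fin k) × Bool)) (i : Fin r) :
    cntG (Sum.inl i.succ, true) l % p = cntG (Sum.inl i.succ, false) l % p ↔
      ((Multiplicative.toAdd (esum (Sum.inl i.succ) (FreeGroup.mk l)) : ℤ) : ZMod p) = 0 := by
  rw [esum_mk, toAdd_ofAdd]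
  push_cast
  rw [sub_eq_zero]
  exact (ZMod.natCast_eq_natCast_iff' _ _ p).symm

theorem TR_red_TK (p r k : ℕ) [hp : Fact p.Prime] :
    ManyOneReducible (TR p r k) (TK p (r + k)) := by
  refine ⟨fun l => if Div p r k l then subst (gR r k) l else [], ?_, ?_⟩
  · have h1 : PrimrecPred (Div p r k) := by
      apply primrecPred_forall
      intro i
      exact Primrec.eq.comp
        (Primrec.nat_mod.comp (primrec_cntG (Sum.inl i.succ, true)) (Primrec.const p))
        (Primrec.nat_mod.comp (primrec_cntG (Sum.inl i.succ, false)) (Primrec.const p))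
    exact (Primrec.ite h1 (primrec_subst (gR r k)) (Primrec.const [])).to_comp
  · intro l
    by_cases hl : Div p r k l
    · simp only [hl, if_true]
      exact TR_iff_TK p r k l (fun i => (div_iff p r k l i).1 (hl i))
    · simp only [hl, if_false]
      have h2 : ∃ i : Fin r, ¬ (cntG (Sum.inl i.succ, true) l % p =
          cntG (Sum.inl i.succ, false) l % p) := by
        unfold Div at hl
        push Not at hl
        exact hl
      obtain ⟨i, hi⟩ := h2
      rw [div_iff] at hi
      constructor
      · intro h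
        exact absurd h (survive_zero (FreeGroup.mk l) i hi)
      · intro h
        exact absurd h (not_TK_nil p (r + k) hp.out.two_le)

/-- `a ↦ a_0`, `x ↦ x_1` -/
theorem T_red_TR_unknown (n r k : ℕ) (hk : 1 ≤ k) : ManyOneReducible (T n) (TR n r k) := by
  refine ⟨subst ![[(Sum.inl 0, true)], [(Sum.inr ⟨0, hk⟩, true)]], (primrec_subst _).to_comp, ?_⟩
  intro l
  have e : ∀ {H : Type} [Group H] (f : Fin (r + 1) ⊕ Fin k → H),
      FreeGroup.lift f (FreeGroup.mk (subst ![[(Sum.inl 0, true)], [(Sum.inr ⟨0, hk⟩, true)]] l)) =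
        FreeGroup.lift ![f (Sum.inl 0), f (Sum.inr ⟨0, hk⟩)] (FreeGroup.mk l) := by
    intro H _ f
    rw [mk_subst, lift_comp]
    congr 2
    ext i
    fin_cases i <;> simp
  constructor
  · intro h
    obtain ⟨F, hF, -⟩ := hom2 n (FreeGroup.mk l)
      (PresentedGroup.of (Sum.inl 0) : PresentedGroup (relsR n r k
        (FreeGroup.mk (subst ![[(Sum.inl 0, true)], [(Sum.inr ⟨0, hk⟩, true)]] l))))
      (PresentedGroup.of (Sum.inr ⟨0, hk⟩)) (ofR_pow_eq_one n r k _ 0)
      (by
        rw [← e (fun i => PresentedGroup.of i)]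
        exact liftR_eq_one n r k _)
    have h2 : (PresentedGroup.of (0 : Fin 2) : PresentedGroup (rels n (FreeGroup.mk l))) = 1 := h
    rw [h2, map_one] at hF
    exact hF.symm
  · intro h
    obtain ⟨F, hF⟩ := homR n r k
      (FreeGroup.mk (subst ![[(Sum.inl 0, true)], [(Sum.inr ⟨0, hk⟩, true)]] l))
      (Sum.elim (fun i => if i = 0 then PresentedGroup.of 0 else 1)
        (fun i => if i = ⟨0, hk⟩ then (PresentedGroup.of 1 : PresentedGroup (rels n (FreeGroup.mk l)))
          else 1))
      (by
        intro i
        show (if i = 0 then PresentedGroup.of 0 else 1) ^ n = 1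
        split_ifs
        · exact of_pow_eq_one n _
        · exact one_pow _)
      (by
        rw [e]
        refine Eq.trans ?_ (lift2_eq_one n (FreeGroup.mk l))
        congr 2
        ext i
        fin_cases i <;> simp)
    have h1 := hF (Sum.inl 0)
    have h2 : (PresentedGroup.of (Sum.inl 0) : PresentedGroup (relsR n r k
      (FreeGroup.mk (subst ![[(Sum.inl 0, true)], [(Sum.inr ⟨0, hk⟩, true)]] l)))) = 1 := h
    rw [h2, map_one] at h1
    exact h1.symm

/-- the word in `a_0, a_1 a_2` -/
def g12 (r k : ℕ) (hr : 2 ≤ r) : Fin 2 → List ((Fin (r + 1) ⊕ Fin k) × Bool) :=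
  ![[(Sum.inl 0, true)], [(Sum.inl ⟨1, by omega⟩, true), (Sum.inl ⟨2, by omega⟩, true)]]

theorem lift_g12 {H : Type} [Group H] (r k : ℕ) (hr : 2 ≤ r) (f : Fin (r + 1) ⊕ Fin k → H)
    (l : List (Fin 2 × Bool)) :
    FreeGroup.lift f (FreeGroup.mk (subst (g12 r k hr) l)) =
      FreeGroup.lift ![f (Sum.inl 0), f (Sum.inl ⟨1, by omega⟩) * f (Sum.inl ⟨2, by omega⟩)]
        (FreeGroup.mk l) := by
  rw [mk_subst, lift_comp]
  congr 2
  ext i
  fin_cases i <;> simp [g12]

theorem T_red_TR_torsion (n r k : ℕ) (hn : 2 ≤ n) (hr : 2 ≤ r) :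
    ManyOneReducible (T n) (TR n r k) := by
  refine ⟨fun l => if cnt (1, true) l = cnt (1, false) l then subst (g12 r k hr) l else [],
    ?_, ?_⟩
  · have hp : PrimrecPred (fun l => cnt (1, true) l = cnt (1, false) l) :=
      Primrec.eq.comp (primrec_cnt _) (primrec_cnt _)
    exact (Primrec.ite hp (primrec_subst (g12 r k hr)) (Primrec.const [])).to_comp
  · intro l
    by_cases hl : cnt (1, true) l = cnt (1, false) l
    · have hx : xsum (FreeGroup.mk l) = 1 := by
        rw [xsum_mk, hl, sub_self]; rfl
      simp only [hl, if_true]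
      constructor
      · intro h
        obtain ⟨F, hF, -⟩ := hom2 n (FreeGroup.mk l)
          (PresentedGroup.of (Sum.inl 0) : PresentedGroup (relsR n r k
            (FreeGroup.mk (subst (g12 r k hr) l))))
          (PresentedGroup.of (Sum.inl ⟨1, by omega⟩) * PresentedGroup.of (Sum.inl ⟨2, by omega⟩))
          (ofR_pow_eq_one n r k _ 0)
          (by
            rw [← lift_g12 r k hr (fun i => PresentedGroup.of i)]
            exact liftR_eq_one n r k _)
        have h2 : (PresentedGroup.of (0 : Fin 2) : PresentedGroup (rels n (FreeGroup.mk l))) = 1 := h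
        rw [h2, map_one] at hF
        exact hF.symm
      · intro h
        by_contra hne
        have hne' : (PresentedGroup.of (0 : Fin 2) : PresentedGroup (rels n (FreeGroup.mk l))) ≠ 1 :=
          hne
        obtain ⟨σ, hσa, hσx⟩ := hom2 n (FreeGroup.mk l) (1 : Multiplicative ℤ)
          (Multiplicative.ofAdd 1) (one_pow _) hx
        obtain ⟨L, _, i, z, hi, hz⟩ := embedA _ _ σ hσa hσx hne'
        set A : L := i (PresentedGroup.of (0 : Fin 2)) with hA
        have hAn : A ^ n = 1 := by rw [hA, ← map_pow, of_pow_eq_one, map_one]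
        obtain ⟨F, hF⟩ := homR n r k (FreeGroup.mk (subst (g12 r k hr) l))
          (Sum.elim (fun j : Fin (r + 1) => z ^ (j : ℕ) * A * (z ^ (j : ℕ))⁻¹) (fun _ => 1))
          (by
            intro j
            show (z ^ (j : ℕ) * A * (z ^ (j : ℕ))⁻¹) ^ n = 1
            rw [conj_pow, hAn, mul_one, mul_inv_cancel])
          (by
            rw [lift_g12]
            have e1 : FreeGroup.lift (fun j => i (PresentedGroup.of j)) (FreeGroup.mk l) = 1 := by
              rw [← map_lift, lift2_eq_one, map_one]
            rw [← e1]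
            congr 2
            ext j
            fin_cases j
            · show z ^ 0 * A * (z ^ 0)⁻¹ = A
              simp
            · show (z ^ 1 * A * (z ^ 1)⁻¹) * (z ^ 2 * A * (z ^ 2)⁻¹) =
                i (PresentedGroup.of (1 : Fin 2))
              rw [hz]
              group)
        have h1 := hF (Sum.inl 0)
        have h2 : (PresentedGroup.of (Sum.inl 0) : PresentedGroup (relsR n r k
          (FreeGroup.mk (subst (g12 r k hr) l)))) = 1 := h
        rw [h2, map_one] at h1
        have h3 : (1 : L) = z ^ 0 * A * (z ^ 0)⁻¹ := h1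
        rw [pow_zero, one_mul, inv_one, mul_one] at h3
        exact hne' (hi (by rw [map_one]; exact h3.symm))
    · have hx : xsum (FreeGroup.mk l) ≠ 1 := by
        intro h
        rw [xsum_mk, ← ofAdd_zero] at h
        have := Multiplicative.ofAdd.injective h
        omega
      simp only [hl, if_false]
      rw [T_iff, order_of_xsum_ne n _ hx]
      have := not_TR_nil n r k hn
      constructor
      · intro h; omega
      · intro h; exact absurd h this

/-- **Several torsion letters of prime order.** -/
theorem TR_equiv (p r k : ℕ) (hp : p.Prime) (h : 1 ≤ k ∨ 2 ≤ r) :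
    ManyOneEquiv (TR p r k) (T p) := by
  have : Fact p.Prime := ⟨hp⟩
  refine ⟨(TR_red_TK p r k).trans (TK_red_T p (r + k) (by omega)), ?_⟩
  rcases h with h | h
  · exact T_red_TR_unknown p r k h
  · exact T_red_TR_torsion p r k hp.two_le h

end Pool.Agent.H57.Lyn
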