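import Pool.Agent.H57.Lyn.Uni

set_option autoImplicit false

/-! Words for which `a` is not trivial but dies in every finite quotient. -/

namespace Pool.Agent.H57.Lyn

open Function Monoid

theorem dvd_two_pow_sub_one (N : ℕ) (hN : 0 < N) (h : N ∣ 2 ^ N - 1) : N = 1 := by
  by_contra h1
  have hp : N.minFac.Prime := Nat.minFac_prime h1
  set p := N.minFac with hpdef
  have : Fact p.Prime := ⟨hp⟩
  have hpd : p ∣ 2 ^ N - 1 := (Nat.minFac_dvd N).trans h
  have h2 : ((2 : ZMod p)) ^ N = 1 := by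
    have h3 : ((2 ^ N - 1 : ℕ) : ZMod p) = 0 := (ZMod.natCast_eq_zero_iff _ _).2 hpd
    rw [Nat.cast_sub Nat.one_le_two_pow] at h3
    push_cast at h3
    exact sub_eq_zero.1 h3
  have h20 : (2 : ZMod p) ≠ 0 := by
    intro h0
    rw [h0, zero_pow hN.ne'] at h2
    exact zero_ne_one h2
  have h4 : (2 : ZMod p) ^ (p - 1) = 1 := ZMod.pow_card_sub_one_eq_one h20
  have h5 : orderOf (2 : ZMod p) ∣ Nat.gcd N (p - 1) :=
    Nat.dvd_gcd (orderOf_dvd_of_pow_eq_one h2) (orderOf_dvd_of_pow_eq_one h4)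
  have h6 : Nat.gcd N (p - 1) = 1 := by
    by_contra h7
    have hq := Nat.minFac_prime h7
    have hq1 : (Nat.gcd N (p - 1)).minFac ∣ N := (Nat.minFac_dvd _).trans (Nat.gcd_dvd_left _ _)
    have hq2 : (Nat.gcd N (p - 1)).minFac ∣ p - 1 :=
      (Nat.minFac_dvd _).trans (Nat.gcd_dvd_right _ _)
    have h8 : p ≤ (Nat.gcd N (p - 1)).minFac := Nat.minFac_le_of_dvd hq.two_le hq1
    have h9 : (Nat.gcd N (p - 1)).minFac ≤ p - 1 :=
      Nat.le_of_dvd (by have := hp.two_le; omega) hq2
    have := hp.two_le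
    omega
  rw [h6, Nat.dvd_one, orderOf_eq_one_iff] at h5
  have h7 : (1 : ZMod p) = 0 := by
    have : (2 : ZMod p) - 1 = 0 := sub_eq_zero.2 h5
    calc (1 : ZMod p) = 2 - 1 := by ring
      _ = 0 := this
  exact one_ne_zero h7

theorem conj_pow_two {G : Type} [Group G] (r s : G) (h : r * s * r⁻¹ = s ^ 2) (m : ℕ) :
    r ^ m * s * (r ^ m)⁻¹ = s ^ (2 ^ m) := by
  induction m with
  | zero => simp
  | succ m ih =>
    have : r ^ (m + 1) * s * (r ^ (m + 1))⁻¹ = r * (r ^ m * s * (r ^ m)⁻¹) * r⁻¹ := by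
      rw [pow_succ']; group
    rw [this, ih, ← conj_pow, h, ← pow_mul, pow_succ', mul_comm]

/-- the basic collapse -/
theorem collapse {G : Type} [Group G] (r s t : G) (hs : IsOfFinOrder s) (hr : t * s * t⁻¹ = r)
    (h : r * s * r⁻¹ = s ^ 2) : s = 1 := by
  have h1 : orderOf r = orderOf s := by
    rw [← hr]
    exact orderOf_injective (MulAut.conj t).toMonoidHom (MulAut.conj t).injective s
  have hN : 0 < orderOf s := hs.orderOf_pos
  have h2 := conj_pow_two r s h (orderOf s)
  rw [← h1, pow_orderOf_eq_one, h1] at h2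
  have h3 : s ^ (2 ^ orderOf s - 1) = 1 := by
    have h4 : s ^ (2 ^ orderOf s) = s := by simpa using h2.symm
    have h5 : 2 ^ orderOf s = (2 ^ orderOf s - 1) + 1 :=
      (Nat.sub_add_cancel Nat.one_le_two_pow).symm
    rw [h5, pow_succ] at h4
    exact mul_eq_right.1 h4
  exact orderOf_eq_one_iff.1 (dvd_two_pow_sub_one _ hN (orderOf_dvd_of_pow_eq_one h3))

/-- the word `s(a, y)` -/
def sw {G : Type} [Group G] (n : ℕ) (a y : G) : G :=
  if n = 2 then a * (y * a * y⁻¹ * (y * y * a * y⁻¹ * y⁻¹) * (y * a * y⁻¹ * (y * y * a * y⁻¹ * y⁻¹)))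
  else y * a * y⁻¹ * a * (y * a * y⁻¹)⁻¹ * (a * a)⁻¹

theorem sw_collapse {G : Type} [Group G] (n : ℕ) (hn : 2 ≤ n) (a y : G) (ha : a ^ n = 1)
    (h : sw n a y = 1) : a = 1 := by
  by_cases h2 : n = 2
  · subst h2
    rw [sw, if_pos rfl] at h
    set b := y * a * y⁻¹ with hb
    set c := y * y * a * y⁻¹ * y⁻¹ with hc
    have ha2 : a * a = 1 := by rw [← pow_two]; exact ha
    have hb2 : b * b = 1 := by
      rw [hb]
      calc y * a * y⁻¹ * (y * a * y⁻¹) = y * (a * a) * y⁻¹ := by group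
        _ = 1 := by rw [ha2]; group
    have hc2 : c * c = 1 := by
      rw [hc]
      calc y * y * a * y⁻¹ * y⁻¹ * (y * y * a * y⁻¹ * y⁻¹) = y * y * (a * a) * y⁻¹ * y⁻¹ := by group
        _ = 1 := by rw [ha2]; group
    have hcb : y * b * y⁻¹ = c := by rw [hb, hc]; group
    have hab : a = (b * c * (b * c))⁻¹ := eq_inv_of_mul_eq_one_left h
    have hbi : b⁻¹ = b := inv_eq_of_mul_eq_one_left hb2
    have hci : c⁻¹ = c := inv_eq_of_mul_eq_one_left hc2
    have hai : a⁻¹ = a := inv_eq_of_mul_eq_one_left ha2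
    have h3 : b * a * b = a := by
      calc b * a * b = b * (b * c * (b * c))⁻¹ * b := by rw [← hab]
        _ = b * (c⁻¹ * b⁻¹ * (c⁻¹ * b⁻¹)) * b := by group
        _ = b * (c * b * (c * b)) * b := by rw [hbi, hci]
        _ = b * c * (b * c) * (b * b) := by group
        _ = b * c * (b * c) := by rw [hb2, mul_one]
        _ = a⁻¹ := by rw [hab, inv_inv]
        _ = a := hai
    have h4 : a * b = b * a := by
      calc a * b = (b * a * b) * b := by rw [h3]
        _ = b * a * (b * b) := by group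
        _ = b * a := by rw [hb2, mul_one]
    have h5 : b * c = c * b := by
      calc b * c = (y * a * y⁻¹) * (y * b * y⁻¹) := by rw [hcb]
        _ = y * (a * b) * y⁻¹ := by group
        _ = y * (b * a) * y⁻¹ := by rw [h4]
        _ = (y * b * y⁻¹) * (y * a * y⁻¹) := by group
        _ = c * b := by rw [hcb]
    have h6 : b * c * (b * c) = 1 := by
      calc b * c * (b * c) = b * (c * b) * c := by group
        _ = b * (b * c) * c := by rw [h5]
        _ = (b * b) * (c * c) := by group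
        _ = 1 := by rw [hb2, hc2, mul_one]
    rw [hab, h6, inv_one]
  · rw [sw, if_neg h2] at h
    apply collapse (y * a * y⁻¹) a y (isOfFinOrder_iff_pow_eq_one.2 ⟨n, by omega, ha⟩) rfl
    rw [pow_two]
    exact mul_inv_eq_one.1 h

theorem map_sw {G H : Type} [Group G] [Group H] (f : G →* H) (n : ℕ) (a y : G) :
    f (sw n a y) = sw n (f a) (f y) := by
  unfold sw
  split_ifs <;> simp

/-- the relator -/
def rw3 {G : Type} [Group G] (n : ℕ) (a y t : G) : G :=
  (t * sw n a y * t⁻¹) * sw n a y * (t * sw n a y * t⁻¹)⁻¹ * (sw n a y ^ 2)⁻¹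

theorem map_rw3 {G H : Type} [Group G] [Group H] (f : G →* H) (n : ℕ) (a y t : G) :
    f (rw3 n a y t) = rw3 n (f a) (f y) (f t) := by
  simp [rw3, map_sw]

theorem rw3_torsion {G : Type} [Group G] (hG : ∀ g : G, IsOfFinOrder g) (n : ℕ) (hn : 2 ≤ n)
    (a y t : G) (ha : a ^ n = 1) (h : rw3 n a y t = 1) : a = 1 := by
  apply sw_collapse n hn a y ha
  apply collapse (t * sw n a y * t⁻¹) (sw n a y) t (hG _) rfl
  exact mul_inv_eq_one.1 h

/-! ### The group in which `a` survives -/

section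

variable (n : ℕ)

/-- two free factors -/
abbrev F2 (n : ℕ) : Bool → Type := Fam (Multiplicative (ZMod n)) (Multiplicative ℤ)

/-- the element `a` -/
def la (n : ℕ) (z : ZMod n) : CoprodI (F2 n) :=
  CoprodI.of (M := F2 n) (i := false) (Multiplicative.ofAdd z : Multiplicative (ZMod n))

/-- the element `y` -/
def ly (n : ℕ) (z : ℤ) : CoprodI (F2 n) :=
  CoprodI.of (M := F2 n) (i := true) (Multiplicative.ofAdd z : Multiplicative ℤ)

theorem la_add (z z' : ZMod n) : la n (z + z') = la n z * la n z' := by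
  unfold la
  rw [← map_mul]
  rfl

theorem ly_add (z z' : ℤ) : ly n (z + z') = ly n z * ly n z' := by
  unfold ly
  rw [← map_mul]
  rfl

theorem la_neg (z : ZMod n) : la n (-z) = (la n z)⁻¹ := by
  unfold la
  rw [← map_inv]
  rfl

theorem ly_neg (z : ℤ) : ly n (-z) = (ly n z)⁻¹ := by
  unfold ly
  rw [← map_inv]
  rfl

open Classical in
theorem step_a (z : ZMod n) (hz : z ≠ 0) (w : CoprodI.Word (F2 n))
    (hw : w.fstIdx ≠ some false) : (la n z • w).fstIdx = some false := by
  unfold la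
  exact fst_smul (fam := F2 n) (i := false) _ (fun h => hz (Multiplicative.ofAdd.injective h)) w hw

open Classical in
theorem step_y (z : ℤ) (hz : z ≠ 0) (w : CoprodI.Word (F2 n))
    (hw : w.fstIdx ≠ some true) : (ly n z • w).fstIdx = some true := by
  unfold ly
  exact fst_smul (fam := F2 n) (i := true) _ (fun h => hz (Multiplicative.ofAdd.injective h)) w hw

theorem sw_pow_ne (hn : 2 ≤ n) (k : ℕ) : (sw n (la n 1) (ly n 1)) ^ (k + 1) ≠ 1 := by
  classical
  have hnt : Nontrivial (ZMod n) := ZMod.nontrivial_iff.2 (by omega)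
  have h1 : (1 : ZMod n) ≠ 0 := one_ne_zero
  have hy1 : (1 : ℤ) ≠ 0 := by norm_num
  have hym : (-1 : ℤ) ≠ 0 := by norm_num
  have hy2 : (-2 : ℤ) ≠ 0 := by norm_num
  have hf : ∀ {w : CoprodI.Word (F2 n)}, w.fstIdx = some false → w.fstIdx ≠ some true := by
    intro w h; rw [h]; simp
  have ht : ∀ {w : CoprodI.Word (F2 n)}, w.fstIdx = some true → w.fstIdx ≠ some false := by
    intro w h; rw [h]; simp
  have he : ∀ b, (CoprodI.Word.empty : CoprodI.Word (F2 n)).fstIdx ≠ some b := by
    intro b; simp [CoprodI.Word.fstIdx]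
  by_cases h2 : n = 2
  · have hs : sw n (la n 1) (ly n 1) = la n 1 * (ly n 1 * (la n 1 * (ly n 1 * (la n 1 *
        (ly n (-1) * (la n 1 * (ly n 1 * (la n 1 * ly n (-2))))))))) := by
      rw [sw, if_pos h2]
      have e1 : ly n (-1) = (ly n 1)⁻¹ := ly_neg n 1
      have e2 : ly n (-2) = (ly n 1)⁻¹ * (ly n 1)⁻¹ := by
        rw [← e1, ← ly_add]; rfl
      rw [e1, e2]
      group
    have key : ∀ w : CoprodI.Word (F2 n), w.fstIdx ≠ some true →
        (sw n (la n 1) (ly n 1) • w).fstIdx = some false := by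
      intro w hw
      rw [hs]
      simp only [mul_smul]
      exact step_a n _ h1 _ (ht (step_y n _ hy1 _ (hf (step_a n _ h1 _ (ht (step_y n _ hy1 _ (hf (step_a n _ h1 _ (ht (step_y n _ hym _ (hf (step_a n _ h1 _ (ht (step_y n _ hy1 _ (hf (step_a n _ h1 _ (ht (step_y n _ hy2 _ hw))))))))))))))))))
    intro h
    have : ∀ k : ℕ, ((sw n (la n 1) (ly n 1)) ^ (k + 1) •
        (CoprodI.Word.empty : CoprodI.Word (F2 n))).fstIdx = some false := by
      intro k
      induction k with
      | zero => rw [zero_add, pow_one]; exact key _ (he _)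
      | succ k ih => rw [pow_succ', mul_smul]; exact key _ (hf ih)
    have h3 := this k
    rw [h, one_smul] at h3
    exact he _ h3
  · have h3 : (-(1 + 1) : ZMod n) ≠ 0 := by
      intro h
      rw [neg_eq_zero] at h
      have h4 : ((2 : ℕ) : ZMod n) = 0 := by push_cast; rw [← h]; ring
      rw [ZMod.natCast_eq_zero_iff] at h4
      have := Nat.le_of_dvd (by norm_num) h4
      omega
    have hs : sw n (la n 1) (ly n 1) = ly n 1 * (la n 1 * (ly n (-1) * (la n 1 * (ly n 1 *
        (la n (-1) * (ly n (-1) * la n (-(1 + 1)))))))) := by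
      rw [sw, if_neg h2]
      have e1 : ly n (-1) = (ly n 1)⁻¹ := ly_neg n 1
      have e2 : la n (-1) = (la n 1)⁻¹ := la_neg n 1
      rw [e1, e2, la_neg, la_add]
      group
    have key : ∀ w : CoprodI.Word (F2 n), w.fstIdx ≠ some false →
        (sw n (la n 1) (ly n 1) • w).fstIdx = some true := by
      intro w hw
      rw [hs]
      simp only [mul_smul]
      exact step_y n _ hy1 _ (hf (step_a n _ h1 _ (ht (step_y n _ hym _ (hf (step_a n _ h1 _ (ht (step_y n _ hy1 _ (hf (step_a n _ (neg_ne_zero.2 h1) _ (ht (step_y n _ hym _ (hf (step_a n _ h3 _ hw))))))))))))))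
    intro h
    have : ∀ k : ℕ, ((sw n (la n 1) (ly n 1)) ^ (k + 1) •
        (CoprodI.Word.empty : CoprodI.Word (F2 n))).fstIdx = some true := by
      intro k
      induction k with
      | zero => rw [zero_add, pow_one]; exact key _ (he _)
      | succ k ih => rw [pow_succ', mul_smul]; exact key _ (ht ih)
    have h4 := this k
    rw [h, one_smul] at h4
    exact he _ h4

theorem zpow_inj_of_pow_ne {G : Type} [Group G] (s : G) (h : ∀ k : ℕ, s ^ (k + 1) ≠ 1) :
    Injective (zpowersHom G s) := by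
  rw [injective_iff_map_eq_one]
  intro z hz
  rw [zpowersHom_apply] at hz
  by_contra hne
  have h0 : Multiplicative.toAdd z ≠ 0 := fun h => hne (Multiplicative.toAdd.injective h)
  obtain ⟨k, hk⟩ := Nat.exists_eq_succ_of_ne_zero (Int.natAbs_ne_zero.2 h0)
  rcases Int.natAbs_eq (Multiplicative.toAdd z) with h' | h'
  · rw [h', zpow_natCast, hk] at hz
    exact h k hz
  · rw [h', zpow_neg, zpow_natCast, inv_eq_one, hk] at hz
    exact h k hz

/-- the Baumslag relation with an element of infinite order -/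
theorem exists_baumslag : ∃ (L : Type) (_ : Group L) (s t : L), (∀ k : ℕ, s ^ (k + 1) ≠ 1) ∧
    (t * s * t⁻¹) * s * (t * s * t⁻¹)⁻¹ = s ^ 2 := by
  let S : Equiv.Perm ℚ := Equiv.addRight (1 : ℚ)
  let R : Equiv.Perm ℚ := Equiv.mulRight₀ (2 : ℚ) (by norm_num)
  have hS : ∀ (k : ℕ) (x : ℚ), (S ^ k) x = x + k := by
    intro k
    induction k with
    | zero => intro x; simp
    | succ k ih =>
      intro x
      rw [pow_succ', Equiv.Perm.mul_apply, ih]
      show x + k + 1 = _
      push_cast; ring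
  have hR : ∀ (k : ℕ) (x : ℚ), (R ^ k) x = x * 2 ^ k := by
    intro k
    induction k with
    | zero => intro x; simp
    | succ k ih =>
      intro x
      rw [pow_succ', Equiv.Perm.mul_apply, ih]
      show x * 2 ^ k * 2 = _
      ring
  have hS1 : ∀ k : ℕ, S ^ (k + 1) ≠ 1 := by
    intro k h
    have := hS (k + 1) 0
    rw [h] at this
    have h2 : (0 : ℚ) = 0 + ((k + 1 : ℕ) : ℚ) := this
    have h3 : ((k + 1 : ℕ) : ℚ) = 0 := by linarith
    exact absurd h3 (by exact_mod_cast Nat.succ_ne_zero k)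
  have hR1 : ∀ k : ℕ, R ^ (k + 1) ≠ 1 := by
    intro k h
    have := hR (k + 1) 1
    rw [h] at this
    have h2 : (1 : ℚ) = 1 * 2 ^ (k + 1) := this
    have h3 : (1 : ℚ) < 2 ^ (k + 1) := one_lt_pow₀ (by norm_num) (Nat.succ_ne_zero k)
    linarith
  have hRS : R * S * R⁻¹ = S ^ 2 := by
    rw [mul_inv_eq_iff_eq_mul]
    ext x
    have h1 : (R * S) x = (x + 1) * 2 := rfl
    have h2 : (S ^ 2 * R) x = x * 2 + 1 + 1 := rfl
    rw [h1, h2]; ring
  obtain ⟨L, _, i, t, hi, ht⟩ := hnn_exists (zpowersHom (Equiv.Perm ℚ) S)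
    (zpowersHom (Equiv.Perm ℚ) R) (zpow_inj_of_pow_ne S hS1) (zpow_inj_of_pow_ne R hR1)
  have h1 : t * i S * t⁻¹ = i R := by
    have := ht (Multiplicative.ofAdd 1)
    rw [zpowersHom_apply, zpowersHom_apply] at this
    simpa using this
  refine ⟨L, inferInstance, i S, t, ?_, ?_⟩
  · intro k h
    rw [← map_pow, map_eq_one_iff i hi] at h
    exact hS1 k h
  · rw [h1, ← map_inv, ← map_mul, ← map_mul, hRS, map_pow]

theorem exists_survive (hn : 2 ≤ n) : ∃ (L : Type) (_ : Group L) (a y t : L),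
    orderOf a = n ∧ rw3 n a y t = 1 := by
  obtain ⟨K, _, S, t, hS, hrel⟩ := exists_baumslag
  obtain ⟨H, _, i, j, hi, hj, hij, -⟩ := amalgam_exists (C := Unit)
    (zpowersHom (CoprodI (F2 n)) (sw n (la n 1) (ly n 1))) (zpowersHom K S)
    (zpow_inj_of_pow_ne _ (sw_pow_ne n hn)) (zpow_inj_of_pow_ne _ hS) 1 1
    (fun c hc => absurd (Subsingleton.elim c 1) hc) (fun c hc => absurd (Subsingleton.elim c 1) hc)
  have h1 : i (sw n (la n 1) (ly n 1)) = j S := by
    have := hij (Multiplicative.ofAdd 1)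
    rw [zpowersHom_apply, zpowersHom_apply] at this
    simpa using this
  refine ⟨H, inferInstance, i (la n 1), i (ly n 1), j t, ?_, ?_⟩
  · rw [orderOf_injective i hi]
    unfold la
    rw [orderOf_injective (CoprodI.of (M := F2 n) (i := false))
      (CoprodI.of_injective (M := F2 n) false)]
    show orderOf (Multiplicative.ofAdd (1 : ZMod n)) = n
    rw [orderOf_ofAdd_eq_addOrderOf]
    exact ZMod.addOrderOf_one n
  · unfold rw3
    rw [← map_sw, h1, ← map_inv, ← map_mul, ← map_mul, ← map_inv, ← map_mul, ← map_mul, hrel,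
      ← map_pow, ← map_inv, ← map_mul, mul_inv_cancel, map_one]

end

/-- `w` in three letters -/
def w0 (n : ℕ) : FreeGroup (Fin (2 + 1)) :=
  rw3 n (FreeGroup.of 0) (FreeGroup.of 1) (FreeGroup.of 2)

theorem lift_w0 {H : Type} [Group H] (n : ℕ) (f : Fin (2 + 1) → H) :
    FreeGroup.lift f (w0 n) = rw3 n (f 0) (f 1) (f 2) := by
  unfold w0
  rw [map_rw3, FreeGroup.lift_apply_of, FreeGroup.lift_apply_of, FreeGroup.lift_apply_of]

theorem order_w0 (n : ℕ) (hn : 2 ≤ n) :
    orderOf (PresentedGroup.of (0 : Fin (2 + 1)) : PresentedGroup (relsK n 2 (w0 n))) = n := by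
  apply Nat.dvd_antisymm
  · exact orderOf_dvd_of_pow_eq_one (ofK_pow_eq_one n 2 _)
  · obtain ⟨L, _, a, y, t, ha, h⟩ := exists_survive n hn
    obtain ⟨F, hF⟩ := homK n 2 (w0 n) (![a, y, t] : Fin (2 + 1) → L)
      (by
        show a ^ n = 1
        rw [← ha]; exact pow_orderOf_eq_one a)
      (by rw [lift_w0]; exact h)
    have h1 : F (PresentedGroup.of 0) = a := hF 0
    calc n = orderOf (F (PresentedGroup.of 0)) := by rw [h1, ha]
      _ ∣ _ := orderOf_map_dvd F _

theorem kills {F : Type} [Group F] (hF : ∀ g : F, IsOfFinOrder g) (n : ℕ) (hn : 2 ≤ n) (A Z : F)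
    (hA : A ^ n = 1)
    (h : FreeGroup.lift ![A, Z] (FreeGroup.lift star (FreeGroup.lift (uwf 2) (w0 n))) = 1) :
    A = 1 := by
  rw [lift_star, lift_uwf, lift_w0] at h
  exact rw3_torsion hF n hn A _ _ hA h

/-- For every `n ≥ 2` there is a word of width three such that `a` has order `n` but dies in every
torsion quotient. -/
theorem torsion_kills (n : ℕ) (hn : 2 ≤ n) : ∃ v : FreeGroup (Fin 3),
    orderOf (PresentedGroup.of (0 : Fin 2) :
      PresentedGroup (rels n (FreeGroup.lift conj3 v))) = n ∧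
    ∀ (F : Type) [Group F], (∀ g : F, IsOfFinOrder g) →
      ∀ f : PresentedGroup (rels n (FreeGroup.lift conj3 v)) →* F,
        f (PresentedGroup.of 0) = 1 := by
  set w1 : FreeGroup (Fin 2) := FreeGroup.lift (uwf 2) (w0 n) with hw1
  refine ⟨FreeGroup.mk (subst gsub w1.toWord), ?_⟩
  rw [lift_gsub, FreeGroup.mk_toWord]
  refine ⟨?_, ?_⟩
  · rw [order_star n w1 (xsum_uwf 2 _), order_uwf n 2 (by norm_num), order_w0 n hn]
  · intro F _ hF f
    have h1 := lift2_eq_one n (FreeGroup.lift star w1)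
    have h2 : FreeGroup.lift ![f (PresentedGroup.of 0), f (PresentedGroup.of 1)]
        (FreeGroup.lift star w1) = 1 := by
      have : (![f (PresentedGroup.of 0), f (PresentedGroup.of 1)] : Fin 2 → F) =
          fun i => f (PresentedGroup.of i) :=
        fin2_fun (fun i => f (PresentedGroup.of i))
      rw [this, ← map_lift, h1, map_one]
    exact kills hF n hn _ _ (by rw [← map_pow, of_pow_eq_one, map_one]) h2

end Pool.Agent.H57.Lyn
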