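import Mathlib

set_option autoImplicit false

/-! Substitutions on words (lists of signed letters), computability, homomorphisms out of
presented groups. -/

namespace Pool.Agent.H57.Lyn

open Function

/-- replace every letter by a word -/
def subst {α β : Type} (g : α → List (β × Bool)) (l : List (α × Bool)) : List (β × Bool) :=
  l.flatMap (fun p => if p.2 = true then g p.1 else FreeGroup.invRev (g p.1))

theorem mk_subst {α β : Type} (g : α → List (β × Bool)) (l : List (α × Bool)) :
    FreeGroup.mk (subst g l) = FreeGroup.lift (fun x => FreeGroup.mk (g x)) (FreeGroup.mk l) := by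
  induction l with
  | nil => 
    show FreeGroup.mk [] = _
    rw [← FreeGroup.one_eq_mk, ← FreeGroup.one_eq_mk, map_one]
  | cons p l ih =>
    have h1 : subst g (p :: l) = (if p.2 = true then g p.1 else FreeGroup.invRev (g p.1)) ++
        subst g l := by
      unfold subst
      rw [List.flatMap_cons]
    rw [h1, ← FreeGroup.mul_mk, ih]
    have h2 : FreeGroup.mk (p :: l) = FreeGroup.mk [p] * FreeGroup.mk l := by
      rw [FreeGroup.mul_mk]; rfl
    rw [h2, map_mul]
    congr 1
    rcases p with ⟨x, b⟩
    cases b
    · have h3 : FreeGroup.mk [(x, false)] = (FreeGroup.of x)⁻¹ := by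
        rw [FreeGroup.of, FreeGroup.inv_mk]; rfl
      rw [h3, map_inv, FreeGroup.lift_apply_of]
      simp [FreeGroup.inv_mk]
    · have h3 : FreeGroup.mk [(x, true)] = FreeGroup.of x := rfl
      rw [h3, FreeGroup.lift_apply_of]
      simp

theorem primrec_subst {α β : Type} [Primcodable α] [Primcodable β] [Finite α]
    (g : α → List (β × Bool)) : Primrec (subst g) := by
  have h : Primrec (fun p : α × Bool =>
      if p.2 = true then g p.1 else FreeGroup.invRev (g p.1)) := Primrec.dom_finite _
  exact Primrec.list_flatMap (f := fun l : List (α × Bool) => l)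
    (g := fun _ p => if p.2 = true then g p.1 else FreeGroup.invRev (g p.1))
    Primrec.id (Primrec.to₂ (h.comp Primrec.snd))

/-- homomorphisms out of a group with two relators -/
theorem exists_hom {α : Type} {H : Type} [Group H] (r s : FreeGroup α) (f : α → H)
    (hr : FreeGroup.lift f r = 1) (hs : FreeGroup.lift f s = 1) :
    ∃ F : PresentedGroup ({r, s} : Set (FreeGroup α)) →* H,
      ∀ x, F (PresentedGroup.of x) = f x := by
  refine ⟨PresentedGroup.toGroup (f := f) ?_, fun x => PresentedGroup.toGroup.of _⟩
  intro t ht
  rcases ht with rfl | ht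
  · exact hr
  · rw [Set.mem_singleton_iff] at ht
    rw [ht]; exact hs

theorem lift_of_eq_mk {α : Type} (R : Set (FreeGroup α)) (w : FreeGroup α) :
    FreeGroup.lift (fun x => (PresentedGroup.of x : PresentedGroup R)) w =
      PresentedGroup.mk R w := by
  have : (FreeGroup.lift (fun x => (PresentedGroup.of x : PresentedGroup R))) =
      PresentedGroup.mk R := by
    ext x
    rw [FreeGroup.lift_apply_of]
    rfl
  rw [this]

theorem lift_comp {α β : Type} {H : Type} [Group H] (f : β → H) (g : α → FreeGroup β)
    (w : FreeGroup α) : FreeGroup.lift f (FreeGroup.lift g w) =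
      FreeGroup.lift (fun x => FreeGroup.lift f (g x)) w := by
  have : (FreeGroup.lift f).comp (FreeGroup.lift g) =
      FreeGroup.lift (fun x => FreeGroup.lift f (g x)) := by
    ext x
    simp
  rw [← this]
  rfl

theorem map_lift {α : Type} {H K : Type} [Group H] [Group K] (φ : H →* K) (f : α → H)
    (w : FreeGroup α) : φ (FreeGroup.lift f w) = FreeGroup.lift (fun x => φ (f x)) w := by
  have : φ.comp (FreeGroup.lift f) = FreeGroup.lift (fun x => φ (f x)) := by
    ext x
    simp
  rw [← this]
  rfl

end Pool.Agent.H57.Lyn
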