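import Pool.Agent.H57.Lyn.Res

set_option autoImplicit false

/-! The word `s(a, y)` takes values of every order `m ≠ 1`, with `a` of order `n`. -/

namespace Pool.Agent.H57.Lyn

open Function Matrix

/-- invertible complex matrices of size two -/
abbrev GG : Type := (Matrix (Fin 2) (Fin 2) ℂ)ˣ

theorem cayley (M : Matrix (Fin 2) (Fin 2) ℂ) (l1 l2 : ℂ) (ht : M 0 0 + M 1 1 = l1 + l2)
    (hd : M 0 0 * M 1 1 - M 0 1 * M 1 0 = l1 * l2) :
    M * M = (l1 + l2) • M - (l1 * l2) • (1 : Matrix (Fin 2) (Fin 2) ℂ) := by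
  have h0 : l1 * l2 = M 0 0 * M 1 1 - M 0 1 * M 1 0 := hd.symm
  have h1 : l1 + l2 = M 0 0 + M 1 1 := ht.symm
  rw [h0, h1]
  ext i j
  fin_cases i <;> fin_cases j <;> simp [Matrix.mul_apply, Fin.sum_univ_two] <;> ring

theorem pow_formula (M : Matrix (Fin 2) (Fin 2) ℂ) (l1 l2 : ℂ) (ht : M 0 0 + M 1 1 = l1 + l2)
    (hd : M 0 0 * M 1 1 - M 0 1 * M 1 0 = l1 * l2) (k : ℕ) :
    (l1 - l2) • M ^ k = (l1 ^ k - l2 ^ k) • M +
      (l1 * l2 ^ k - l2 * l1 ^ k) • (1 : Matrix (Fin 2) (Fin 2) ℂ) := by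
  induction k with
  | zero => simp
  | succ k ih =>
    have h1 : (l1 - l2) • M ^ (k + 1) = ((l1 - l2) • M ^ k) * M := by
      rw [pow_succ, smul_mul_assoc]
    rw [h1, ih, add_mul, smul_mul_assoc, cayley M l1 l2 ht hd, smul_mul_assoc, one_mul]
    ext i j
    simp only [Matrix.add_apply, Matrix.smul_apply, Matrix.sub_apply, smul_eq_mul]
    ring

/-- two unipotent matrices -/
def h1 : GG := ⟨!![1, 1; 0, 1], !![1, -1; 0, 1],
  by ext i j; fin_cases i <;> fin_cases j <;> simp [Matrix.mul_apply, Fin.sum_univ_two],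
  by ext i j; fin_cases i <;> fin_cases j <;> simp [Matrix.mul_apply, Fin.sum_univ_two]⟩

def h2 : GG := ⟨!![1, 0; 1, 1], !![1, 0; -1, 1],
  by ext i j; fin_cases i <;> fin_cases j <;> simp [Matrix.mul_apply, Fin.sum_univ_two],
  by ext i j; fin_cases i <;> fin_cases j <;> simp [Matrix.mul_apply, Fin.sum_univ_two]⟩

theorem scalar_of_comm (M : Matrix (Fin 2) (Fin 2) ℂ) (e1 : M * (h1 : GG).val = (h1 : GG).val * M)
    (e2 : M * (h2 : GG).val = (h2 : GG).val * M) : M 0 1 = 0 ∧ M 1 0 = 0 ∧ M 0 0 = M 1 1 := by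
  have a1 := congrFun (congrFun e1 0) 0
  have a2 := congrFun (congrFun e1 0) 1
  have b1 := congrFun (congrFun e2 0) 0
  simp [h1, h2, Matrix.mul_apply, Fin.sum_univ_two] at a1 a2 b1
  refine ⟨?_, ?_, ?_⟩
  · exact b1
  · exact a1
  · linear_combination a2

theorem conj_pow_one (g : GG) (k : ℕ) (l1 l2 : ℂ) (hl : l1 ≠ l2)
    (ht : g.val 0 0 + g.val 1 1 = l1 + l2)
    (hd : g.val 0 0 * g.val 1 1 - g.val 0 1 * g.val 1 0 = l1 * l2) :
    (MulAut.conj g) ^ k = 1 ↔ l1 ^ k = l2 ^ k := by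
  have hf := pow_formula g.val l1 l2 ht hd k
  rw [← map_pow]
  constructor
  · intro h
    have hc : ∀ x : GG, g ^ k * x = x * g ^ k := by
      intro x
      have : MulAut.conj (g ^ k) x = x := by rw [h]; rfl
      rw [MulAut.conj_apply, mul_inv_eq_iff_eq_mul] at this
      exact this
    have e1 : (g.val ^ k) * (h1 : GG).val = (h1 : GG).val * g.val ^ k := by
      have := congrArg Units.val (hc h1)
      simpa using this
    have e2 : (g.val ^ k) * (h2 : GG).val = (h2 : GG).val * g.val ^ k := by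
      have := congrArg Units.val (hc h2)
      simpa using this
    obtain ⟨c1, c2, c3⟩ := scalar_of_comm _ e1 e2
    by_contra hne
    have hne' : l1 ^ k - l2 ^ k ≠ 0 := sub_ne_zero.2 hne
    have f01 := congrFun (congrFun hf 0) 1
    have f10 := congrFun (congrFun hf 1) 0
    have f00 := congrFun (congrFun hf 0) 0
    have f11 := congrFun (congrFun hf 1) 1
    simp only [Matrix.add_apply, Matrix.smul_apply, smul_eq_mul, Matrix.one_apply_eq,
      Matrix.one_apply_ne (show (0 : Fin 2) ≠ 1 by decide),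
      Matrix.one_apply_ne (show (1 : Fin 2) ≠ 0 by decide), mul_zero, add_zero, mul_one]
      at f01 f10 f00 f11
    rw [c1, mul_zero] at f01
    rw [c2, mul_zero] at f10
    have g01 : g.val 0 1 = 0 := (mul_eq_zero.1 f01.symm).resolve_left hne'
    have g00 : g.val 0 0 = g.val 1 1 := by
      have : (l1 ^ k - l2 ^ k) * (g.val 0 0 - g.val 1 1) = 0 := by
        rw [c3] at f00
        linear_combination f11 - f00
      exact sub_eq_zero.1 ((mul_eq_zero.1 this).resolve_left hne')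
    rw [g01, g00] at hd
    rw [g00] at ht
    have : (l1 - l2) ^ 2 = 0 := by
      have h4 : (l1 + l2) ^ 2 = 4 * (l1 * l2) := by
        rw [← ht, ← hd]; ring
      linear_combination h4
    exact hl (sub_eq_zero.1 (pow_eq_zero_iff (two_ne_zero) |>.1 this))
  · intro h
    have hs : (l1 - l2) • g.val ^ k =
        (l1 * l2 ^ k - l2 * l1 ^ k) • (1 : Matrix (Fin 2) (Fin 2) ℂ) := by
      rw [hf, h, sub_self, zero_smul, zero_add]
    have hne : l1 - l2 ≠ 0 := sub_ne_zero.2 hl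
    have hs' : g.val ^ k = ((l1 - l2)⁻¹ * (l1 * l2 ^ k - l2 * l1 ^ k)) •
        (1 : Matrix (Fin 2) (Fin 2) ℂ) := by
      rw [← smul_smul, ← hs, smul_smul, inv_mul_cancel₀ hne, one_smul]
    ext1 x
    rw [MulAut.conj_apply, mul_inv_eq_iff_eq_mul]
    show g ^ k * x = x * g ^ k
    apply Units.ext
    rw [Units.val_mul, Units.val_mul, Units.val_pow_eq_pow_val, hs', smul_mul_assoc, one_mul,
      mul_smul_comm, mul_one]

theorem order_of_pow {G : Type} [Group G] (x : G) (m : ℕ) (h : ∀ k : ℕ, x ^ k = 1 ↔ m ∣ k) :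
    orderOf x = m := by
  apply Nat.dvd_antisymm
  · exact orderOf_dvd_of_pow_eq_one ((h m).2 dvd_rfl)
  · exact (h _).1 (pow_orderOf_eq_one x)

/-- a ratio of eigenvalues of every order -/
theorem exists_ratio (m : ℕ) (hm : m ≠ 1) : ∃ μ : ℂ, μ ≠ 0 ∧ μ ≠ 1 ∧ ∀ k : ℕ, μ ^ k = 1 ↔ m ∣ k := by
  rcases Nat.eq_zero_or_pos m with rfl | hpos
  · refine ⟨2, two_ne_zero, by norm_num, ?_⟩
    intro k
    rw [zero_dvd_iff]
    constructor
    · intro h
      by_contra hk
      have h1 : (2 : ℝ) ^ k = 1 := by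
        have := congrArg (fun z : ℂ => ‖z‖) h
        simpa using this
      have : (1 : ℝ) < 2 ^ k := one_lt_pow₀ (by norm_num) hk
      linarith
    · rintro rfl
      simp
  · have hp := Complex.isPrimitiveRoot_exp m hpos.ne'
    refine ⟨_, hp.ne_zero hpos.ne', ?_, fun k => hp.pow_eq_one_iff_dvd k⟩
    intro h1
    have := hp.pow_eq_one_iff_dvd 1
    rw [pow_one] at this
    exact hm (Nat.dvd_one.1 (this.1 h1))

/-- the diagonal matrix with entries `1, z` -/
noncomputable def dg (z : ℂ) (hz : z ≠ 0) : GG := ⟨!![1, 0; 0, z], !![1, 0; 0, z⁻¹],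
  by ext i j; fin_cases i <;> fin_cases j <;> simp [Matrix.mul_apply, Fin.sum_univ_two, hz],
  by ext i j; fin_cases i <;> fin_cases j <;> simp [Matrix.mul_apply, Fin.sum_univ_two, hz]⟩

/-- a conjugating matrix, first kind -/
noncomputable def ya (t : ℂ) : GG := ⟨!![t, 1; -1, 0], !![0, -1; 1, t],
  by ext i j; fin_cases i <;> fin_cases j <;> simp [Matrix.mul_apply, Fin.sum_univ_two],
  by ext i j; fin_cases i <;> fin_cases j <;> simp [Matrix.mul_apply, Fin.sum_univ_two]⟩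

/-- a conjugating matrix, second kind -/
noncomputable def yb (t : ℂ) : GG := ⟨!![1, t; 1, t + 1], !![t + 1, -t; -1, 1],
  by ext i j; fin_cases i <;> fin_cases j <;> simp [Matrix.mul_apply, Fin.sum_univ_two],
  by
    ext i j
    fin_cases i <;> fin_cases j <;> simp [Matrix.mul_apply, Fin.sum_univ_two]
    ring⟩

theorem val_dg (z : ℂ) (hz : z ≠ 0) : (dg z hz).val = !![1, 0; 0, z] := rfl
theorem val_dg_inv (z : ℂ) (hz : z ≠ 0) : ((dg z hz)⁻¹).val = !![1, 0; 0, z⁻¹] := rfl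
theorem val_ya (t : ℂ) : (ya t).val = !![t, 1; -1, 0] := rfl
theorem val_ya_inv (t : ℂ) : ((ya t)⁻¹).val = !![0, -1; 1, t] := rfl
theorem val_yb (t : ℂ) : (yb t).val = !![1, t; 1, t + 1] := rfl
theorem val_yb_inv (t : ℂ) : ((yb t)⁻¹).val = !![t + 1, -t; -1, 1] := rfl

theorem sw_two (t : ℂ) : ((sw 2 (dg (-1) (by norm_num)) (ya t)).val 0 0 +
      (sw 2 (dg (-1) (by norm_num)) (ya t)).val 1 1 = 8 * t ^ 2) ∧
    ((sw 2 (dg (-1) (by norm_num)) (ya t)).val 0 0 *
      (sw 2 (dg (-1) (by norm_num)) (ya t)).val 1 1 -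
      (sw 2 (dg (-1) (by norm_num)) (ya t)).val 0 1 *
      (sw 2 (dg (-1) (by norm_num)) (ya t)).val 1 0 = -1) := by
  have e : (sw 2 (dg (-1) (by norm_num)) (ya t)).val =
      !![1, 0; 0, -1] * (!![t, 1; -1, 0] * !![1, 0; 0, -1] * !![0, -1; 1, t] *
        (!![t, 1; -1, 0] * !![t, 1; -1, 0] * !![1, 0; 0, -1] * !![0, -1; 1, t] * !![0, -1; 1, t]) *
        (!![t, 1; -1, 0] * !![1, 0; 0, -1] * !![0, -1; 1, t] *
        (!![t, 1; -1, 0] * !![t, 1; -1, 0] * !![1, 0; 0, -1] * !![0, -1; 1, t] *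
          !![0, -1; 1, t]))) := by
    rw [sw, if_pos rfl]
    simp only [Units.val_mul, val_dg, val_ya, val_ya_inv]
  rw [e]
  constructor
  · simp only [Matrix.mul_fin_two, Matrix.of_apply, Matrix.cons_val', Matrix.cons_val_zero,
      Matrix.cons_val_one, Matrix.empty_val', Matrix.cons_val_fin_one]
    ring
  · simp only [Matrix.mul_fin_two, Matrix.of_apply, Matrix.cons_val', Matrix.cons_val_zero,
      Matrix.cons_val_one, Matrix.empty_val', Matrix.cons_val_fin_one]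
    ring

theorem sw_big (n : ℕ) (hn : n ≠ 2) (t z : ℂ) (hz : z ≠ 0) :
    ((sw n (dg z hz) (yb t)).val 0 0 + (sw n (dg z hz) (yb t)).val 1 1 =
      z⁻¹ * ((1 + t * (1 - z)) * (z - t * (1 - z)) * ((1 - z) * (1 - z⁻¹ ^ 2)) +
        z * (z + z⁻¹ ^ 2))) ∧
    ((sw n (dg z hz) (yb t)).val 0 0 * (sw n (dg z hz) (yb t)).val 1 1 -
      (sw n (dg z hz) (yb t)).val 0 1 * (sw n (dg z hz) (yb t)).val 1 0 = z⁻¹) := by
  have e : (sw n (dg z hz) (yb t)).val =
      !![1, t; 1, t + 1] * !![1, 0; 0, z] * !![t + 1, -t; -1, 1] * !![1, 0; 0, z] *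
      (!![1, t; 1, t + 1] * (!![1, 0; 0, z⁻¹] * !![t + 1, -t; -1, 1])) *
      (!![1, 0; 0, z⁻¹] * !![1, 0; 0, z⁻¹]) := by
    rw [sw, if_neg hn]
    simp only [_root_.mul_inv_rev, inv_inv, Units.val_mul, val_dg, val_dg_inv, val_yb, val_yb_inv]
  rw [e]
  constructor
  · simp only [Matrix.mul_fin_two, Matrix.of_apply, Matrix.cons_val', Matrix.cons_val_zero,
      Matrix.cons_val_one, Matrix.empty_val', Matrix.cons_val_fin_one]
    field_simp
    ring
  · simp only [Matrix.mul_fin_two, Matrix.of_apply, Matrix.cons_val', Matrix.cons_val_zero,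
      Matrix.cons_val_one, Matrix.empty_val', Matrix.cons_val_fin_one]
    field_simp
    ring

theorem trace_dg (z : ℂ) (hz : z ≠ 0) : (dg z hz).val 0 0 + (dg z hz).val 1 1 = 1 + z := by
  rw [val_dg]; simp

theorem det_dg (z : ℂ) (hz : z ≠ 0) : (dg z hz).val 0 0 * (dg z hz).val 1 1 -
    (dg z hz).val 0 1 * (dg z hz).val 1 0 = 1 * z := by
  rw [val_dg]; simp

/-- **Values of every order.** -/
theorem exists_value (n : ℕ) (hn : 2 ≤ n) (m : ℕ) (hm : m ≠ 1) :
    ∃ (K : Type) (_ : Group K) (a y : K), orderOf a = n ∧ orderOf (sw n a y) = m := by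
  obtain ⟨z, hz0, hz1, hz⟩ := exists_ratio n (by omega)
  obtain ⟨μ, hμ0, hμ1, hμ⟩ := exists_ratio m hm
  obtain ⟨l, hl⟩ := IsAlgClosed.exists_pow_nat_eq (z⁻¹ / μ) (n := 2) (by norm_num)
  have hl0 : l ≠ 0 := by
    rintro rfl
    rw [zero_pow two_ne_zero] at hl
    exact (div_ne_zero (inv_ne_zero hz0) hμ0) hl.symm
  have hdet : l * (μ * l) = z⁻¹ := by
    have : l * (μ * l) = μ * l ^ 2 := by ring
    rw [this, hl]
    field_simp
  have hne : l ≠ μ * l := by
    intro h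
    apply hμ1
    have : (μ - 1) * l = 0 := by linear_combination -h
    exact sub_eq_zero.1 ((mul_eq_zero.1 this).resolve_right hl0)
  have hpow : ∀ k : ℕ, l ^ k = (μ * l) ^ k ↔ m ∣ k := by
    intro k
    rw [← hμ k, mul_pow]
    have hlk : l ^ k ≠ 0 := pow_ne_zero _ hl0
    constructor
    · intro h
      exact (mul_right_cancel₀ hlk (by rw [one_mul]; exact h)).symm
    · intro h
      rw [h, one_mul]
  have key : ∃ y : GG, (sw n (dg z hz0) y).val 0 0 + (sw n (dg z hz0) y).val 1 1 = l + μ * l ∧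
      (sw n (dg z hz0) y).val 0 0 * (sw n (dg z hz0) y).val 1 1 -
      (sw n (dg z hz0) y).val 0 1 * (sw n (dg z hz0) y).val 1 0 = l * (μ * l) := by
    by_cases h2 : n = 2
    · subst h2
      have hz' : z = -1 := by
        have h3 : z ^ 2 = 1 := (hz 2).2 dvd_rfl
        have h4 : (z - 1) * (z + 1) = 0 := by linear_combination h3
        rcases mul_eq_zero.1 h4 with h5 | h5
        · exact absurd (sub_eq_zero.1 h5) hz1
        · linear_combination h5
      subst hz'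
      obtain ⟨t, ht⟩ := IsAlgClosed.exists_pow_nat_eq ((l + μ * l) / 8) (n := 2) (by norm_num)
      refine ⟨ya t, ?_, ?_⟩
      · rw [(sw_two t).1, ht]
        field_simp
      · rw [(sw_two t).2, hdet]
        norm_num
    · have hz2 : 1 - z⁻¹ ^ 2 ≠ 0 := by
        intro h
        have h3 : z ^ 2 = 1 := by
          have h4 : z⁻¹ ^ 2 = 1 := by linear_combination -h
          rw [inv_pow, inv_eq_one] at h4
          exact h4
        have h5 := (hz 2).1 h3
        have := Nat.le_of_dvd (by norm_num) h5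
        omega
      have hz3 : 1 - z ≠ 0 := sub_ne_zero.2 (Ne.symm hz1)
      set Pt : ℂ := (z * (l + μ * l) - z * (z + z⁻¹ ^ 2)) / ((1 - z) * (1 - z⁻¹ ^ 2)) with hPt
      obtain ⟨r, hr⟩ := IsAlgClosed.exists_pow_nat_eq ((1 - z) ^ 2 / 4 - (Pt - z)) (n := 2)
        (by norm_num)
      refine ⟨yb ((r - (1 - z) / 2) / (1 - z)), ?_, ?_⟩
      · rw [(sw_big n h2 _ z hz0).1]
        have e1 : (r - (1 - z) / 2) / (1 - z) * (1 - z) = r - (1 - z) / 2 := by
          field_simp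
        rw [e1]
        have e2 : (1 + (r - (1 - z) / 2)) * (z - (r - (1 - z) / 2)) = Pt := by
          linear_combination -hr
        have e3 : Pt * ((1 - z) * (1 - z⁻¹ ^ 2)) = z * (l + μ * l) - z * (z + z⁻¹ ^ 2) :=
          div_mul_cancel₀ _ (mul_ne_zero hz3 hz2)
        rw [e2, e3, sub_add_cancel, inv_mul_cancel_left₀ hz0]
      · rw [(sw_big n h2 _ z hz0).2, hdet]
  obtain ⟨y, hy1, hy2⟩ := key
  refine ⟨MulAut GG, inferInstance, MulAut.conj (dg z hz0), MulAut.conj y, ?_, ?_⟩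
  · apply order_of_pow
    intro k
    rw [conj_pow_one (dg z hz0) k 1 z (Ne.symm hz1) (trace_dg z hz0) (det_dg z hz0), one_pow,
      eq_comm]
    exact hz k
  · apply order_of_pow
    intro k
    rw [← map_sw, conj_pow_one _ k l (μ * l) hne hy1 hy2]
    exact hpow k

end Pool.Agent.H57.Lyn
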