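import Pool.Agent.H57.Lyn.Unk

set_option autoImplicit false

/-! One substitution for all exponents: `k` unknowns reduce to width three. -/

namespace Pool.Agent.H57.Lyn

open Function

theorem xsum_uwf (k : ℕ) (w : FreeGroup (Fin (k + 1))) :
    xsum (FreeGroup.lift (uwf k) w) = 1 := by
  have : xsum.comp (FreeGroup.lift (uwf k)) = 1 := by
    ext i
    induction i using Fin.cases with
    | zero =>
      show xsum (FreeGroup.lift (uwf k) (FreeGroup.of 0)) = 1
      rw [FreeGroup.lift_apply_of]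
      show xsum (FreeGroup.of 0) = 1
      exact FreeGroup.lift_apply_of
    | succ j =>
      show xsum (FreeGroup.lift (uwf k) (FreeGroup.of j.succ)) = 1
      rw [FreeGroup.lift_apply_of]
      show xsum (uw k j (FreeGroup.of 0) (FreeGroup.of 1)) = 1
      rw [map_uw]
      have h0 : xsum (FreeGroup.of 0) = 1 := FreeGroup.lift_apply_of
      rw [h0]
      simp [uw, cj]
  exact DFunLike.congr_fun this w

/-- `a ↦ a_0`, `x ↦ a_1 a_2` -/
def st : Fin 2 → FreeGroup (Fin 3) := ![FreeGroup.of 0, FreeGroup.of 1 * FreeGroup.of 2]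

theorem lift_st (w : FreeGroup (Fin 2)) :
    FreeGroup.lift conj3 (FreeGroup.lift st w) = FreeGroup.lift star w := by
  rw [lift_comp]
  congr 2
  ext1 i
  fin_cases i
  · show FreeGroup.lift conj3 (FreeGroup.of 0) = FreeGroup.of 0
    rw [FreeGroup.lift_apply_of]
    simp [conj3]
  · show FreeGroup.lift conj3 (FreeGroup.of 1 * FreeGroup.of 2) = _
    rw [map_mul, FreeGroup.lift_apply_of, FreeGroup.lift_apply_of]
    simp only [conj3, star]
    show _ = FreeGroup.of 1 * FreeGroup.of 0 * FreeGroup.of 1 * FreeGroup.of 0 *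
      (FreeGroup.of 1)⁻¹ * (FreeGroup.of 1)⁻¹
    have e1 : ((1 : Fin 3) : ℕ) = 1 := rfl
    have e2 : ((2 : Fin 3) : ℕ) = 2 := rfl
    rw [e1, e2]
    group

/-- the substitution from `k` unknowns to three conjugates of `a` -/
def phi (k : ℕ) : FreeGroup (Fin (k + 1)) →* FreeGroup (Fin 3) :=
  (FreeGroup.lift st).comp (FreeGroup.lift (uwf k))

theorem phi_of_zero (k : ℕ) : phi k (FreeGroup.of 0) = FreeGroup.of 0 := by
  show FreeGroup.lift st (FreeGroup.lift (uwf k) (FreeGroup.of 0)) = _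
  rw [FreeGroup.lift_apply_of]
  show FreeGroup.lift st (FreeGroup.of 0) = _
  rw [FreeGroup.lift_apply_of]
  rfl

theorem order_phi (k : ℕ) (hk : 1 ≤ k) (n : ℕ) (w : FreeGroup (Fin (k + 1))) :
    orderOf (PresentedGroup.of (0 : Fin 2) :
      PresentedGroup (rels n (FreeGroup.lift conj3 (phi k w)))) =
    orderOf (PresentedGroup.of (0 : Fin (k + 1)) : PresentedGroup (relsK n k w)) := by
  have h1 : FreeGroup.lift conj3 (phi k w) = FreeGroup.lift star (FreeGroup.lift (uwf k) w) :=
    lift_st _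
  rw [h1, order_star n _ (xsum_uwf k w), order_uwf n k hk]

/-- words for the substitution -/
def phil (k : ℕ) (i : Fin (k + 1)) : List (Fin 3 × Bool) := (phi k (FreeGroup.of i)).toWord

theorem TK_red_T3 (n k : ℕ) (hk : 1 ≤ k) : ManyOneReducible (TK n k) (T3 n) := by
  refine ⟨subst (phil k), (primrec_subst (phil k)).to_comp, ?_⟩
  intro l
  rw [T3_iff, TK_iff, mk_subst]
  have h1 : (fun x => FreeGroup.mk (phil k x)) = fun i => phi k (FreeGroup.of i) :=
    funext (fun x => FreeGroup.mk_toWord)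
  have h2 : FreeGroup.lift (fun i => phi k (FreeGroup.of i)) = phi k := by
    ext i
    rw [FreeGroup.lift_apply_of]
  rw [h1, h2, order_phi k hk n]

theorem TK_equiv_T3 (n k : ℕ) (hk : 1 ≤ k) : ManyOneEquiv (TK n k) (T3 n) :=
  ⟨TK_red_T3 n k hk, (T3_red_T n).trans (T_red_TK n k hk)⟩

end Pool.Agent.H57.Lyn
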