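import Pool.Agent.H57.Lyn.Emb
import Pool.Agent.H57.Lyn.Sub

set_option autoImplicit false

/-! Width three is enough. -/

namespace Pool.Agent.H57.Lyn

open Function

/-- the relators of the group `⟨a, x | a^n, w⟩`; the letter `0` is `a`, the letter `1` is `x` -/
def rels (n : ℕ) (w : FreeGroup (Fin 2)) : Set (FreeGroup (Fin 2)) :=
  {FreeGroup.of 0 ^ n, w}

/-- the set `T_n` of the problem -/
def T (n : ℕ) (l : List (Fin 2 × Bool)) : Prop :=
  (PresentedGroup.of (0 : Fin 2) : PresentedGroup (rels n (FreeGroup.mk l))) = 1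

/-- the element `x^i a x^(-i)` of the free group -/
def conj3 (i : Fin 3) : FreeGroup (Fin 2) :=
  FreeGroup.of 1 ^ (i : ℕ) * FreeGroup.of 0 * (FreeGroup.of 1 ^ (i : ℕ))⁻¹

/-- `T_n` for words in `a, x a x^(-1), x^2 a x^(-2)` -/
def T3 (n : ℕ) (l : List (Fin 3 × Bool)) : Prop :=
  (PresentedGroup.of (0 : Fin 2) :
    PresentedGroup (rels n (FreeGroup.lift conj3 (FreeGroup.mk l)))) = 1

/-- the exponent sum of `x`, as a homomorphism -/
def xsum : FreeGroup (Fin 2) →* Multiplicative ℤ :=
  FreeGroup.lift ![1, Multiplicative.ofAdd 1]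

/-- the exponent sum of `a`, as a homomorphism -/
def asum : FreeGroup (Fin 2) →* Multiplicative ℤ :=
  FreeGroup.lift ![Multiplicative.ofAdd 1, 1]

/-- the substitution `a ↦ a`, `x ↦ x a x a x^(-2)` -/
def star : Fin 2 → FreeGroup (Fin 2) :=
  ![FreeGroup.of 0, FreeGroup.of 1 * FreeGroup.of 0 * FreeGroup.of 1 * FreeGroup.of 0 *
    (FreeGroup.of 1)⁻¹ * (FreeGroup.of 1)⁻¹]

theorem of_pow_eq_one (n : ℕ) (w : FreeGroup (Fin 2)) :
    (PresentedGroup.of (0 : Fin 2) : PresentedGroup (rels n w)) ^ n = 1 := by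
  have : (FreeGroup.of 0 ^ n : FreeGroup (Fin 2)) ∈ rels n w := Or.inl rfl
  have h := PresentedGroup.one_of_mem this
  rw [map_pow] at h
  exact h

theorem mk_w_eq_one (n : ℕ) (w : FreeGroup (Fin 2)) :
    PresentedGroup.mk (rels n w) w = 1 := by
  have : w ∈ rels n w := Or.inr rfl
  exact PresentedGroup.one_of_mem this

theorem fin2_fun {H : Type} (f : Fin 2 → H) : ![f 0, f 1] = f := by
  ext i
  fin_cases i <;> rfl

/-- homomorphisms out of `⟨a, x | a^n, w⟩` -/
theorem hom2 {H : Type} [Group H] (n : ℕ) (w : FreeGroup (Fin 2)) (a x : H) (ha : a ^ n = 1)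
    (hw : FreeGroup.lift ![a, x] w = 1) :
    ∃ F : PresentedGroup (rels n w) →* H, F (PresentedGroup.of 0) = a ∧
      F (PresentedGroup.of 1) = x := by
  obtain ⟨F, hF⟩ := exists_hom (FreeGroup.of 0 ^ n) w ![a, x]
    (by rw [map_pow, FreeGroup.lift_apply_of]; exact ha) hw
  exact ⟨F, hF 0, hF 1⟩

theorem lift_star {H : Type} [Group H] (a x : H) (w : FreeGroup (Fin 2)) :
    FreeGroup.lift ![a, x] (FreeGroup.lift star w) =
      FreeGroup.lift ![a, x * a * x * a * x⁻¹ * x⁻¹] w := by
  rw [lift_comp]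
  congr 2
  ext i
  fin_cases i <;> simp [star]

/-- The order of `a` does not change under the substitution `x ↦ x a x a x^(-2)`, when the
exponent sum of `x` in `w` is zero. -/
theorem order_star (n : ℕ) (w : FreeGroup (Fin 2)) (hw : xsum w = 1) :
    orderOf (PresentedGroup.of (0 : Fin 2) : PresentedGroup (rels n (FreeGroup.lift star w))) =
      orderOf (PresentedGroup.of (0 : Fin 2) : PresentedGroup (rels n w)) := by
  set a : PresentedGroup (rels n w) := PresentedGroup.of 0 with ha
  set x : PresentedGroup (rels n w) := PresentedGroup.of 1 with hx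
  set a' : PresentedGroup (rels n (FreeGroup.lift star w)) := PresentedGroup.of 0 with ha'
  set x' : PresentedGroup (rels n (FreeGroup.lift star w)) := PresentedGroup.of 1 with hx'
  have hax : FreeGroup.lift ![a, x] w = 1 := by
    have h1 : (![a, x] : Fin 2 → PresentedGroup (rels n w)) =
        fun i => PresentedGroup.of i := by
      rw [ha, hx]; exact fin2_fun (fun i => (PresentedGroup.of i : PresentedGroup (rels n w)))
    rw [h1, lift_of_eq_mk, mk_w_eq_one]
  have hax' : FreeGroup.lift ![a', x'] (FreeGroup.lift star w) = 1 := by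
    have h1 : (![a', x'] : Fin 2 → PresentedGroup (rels n (FreeGroup.lift star w))) =
        fun i => PresentedGroup.of i := by
      rw [ha', hx']
      exact fin2_fun (fun i =>
        (PresentedGroup.of i : PresentedGroup (rels n (FreeGroup.lift star w))))
    rw [h1, lift_of_eq_mk, mk_w_eq_one]
  obtain ⟨κ, hκa, hκx⟩ := hom2 n w a' (x' * a' * x' * a' * x'⁻¹ * x'⁻¹)
    (of_pow_eq_one n _) (by rw [← lift_star]; exact hax')
  apply Nat.dvd_antisymm
  · rw [← hκa]
    exact orderOf_map_dvd κ a
  · by_cases ha1 : a = 1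
    · rw [ha1, orderOf_one]
      exact one_dvd _
    · obtain ⟨σ, hσa, hσx⟩ := hom2 n w (1 : Multiplicative ℤ) (Multiplicative.ofAdd 1)
        (one_pow _) hw
      obtain ⟨L, _, i, z, hi, hz⟩ := embedA a x σ hσa hσx ha1
      obtain ⟨lam, hla, _⟩ := hom2 n (FreeGroup.lift star w) (i a) z
        (by rw [← map_pow, of_pow_eq_one, map_one])
        (by
          rw [lift_star, ← hz]
          have : FreeGroup.lift ![i a, i x] w = i (FreeGroup.lift ![a, x] w) := by
            rw [map_lift]
            congr 2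
            ext j
            fin_cases j <;> rfl
          rw [this, hax, map_one])
      rw [← orderOf_injective i hi a, ← hla]
      exact orderOf_map_dvd lam a'

theorem lift_comm {H : Type} [CommGroup H] (a x : H) (w : FreeGroup (Fin 2)) :
    FreeGroup.lift ![a, x] w =
      a ^ (Multiplicative.toAdd (asum w)) * x ^ (Multiplicative.toAdd (xsum w)) := by
  have h : FreeGroup.lift ![a, x] =
      ((zpowersHom H a).comp asum) * ((zpowersHom H x).comp xsum) := by
    ext i
    fin_cases i <;> simp [asum, xsum]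
  rw [h]
  simp [zpowersHom_apply]

/-- if the exponent sum of `x` is not zero then `a` has order `n` -/
theorem order_of_xsum_ne (n : ℕ) (w : FreeGroup (Fin 2)) (hw : xsum w ≠ 1) :
    orderOf (PresentedGroup.of (0 : Fin 2) : PresentedGroup (rels n w)) = n := by
  set s : ℤ := Multiplicative.toAdd (xsum w) with hs
  set r : ℤ := Multiplicative.toAdd (asum w) with hr
  have hs0 : s ≠ 0 := by
    intro h
    apply hw
    rw [← ofAdd_toAdd (xsum w), ← hs, h]
    rfl
  let N : ℕ := n * s.natAbs
  obtain ⟨F, hF, _⟩ := hom2 n w (Multiplicative.ofAdd ((s : ℤ) : ZMod N))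
    (Multiplicative.ofAdd ((-r : ℤ) : ZMod N))
    (by
      rw [← ofAdd_nsmul, ← ofAdd_zero]
      congr 1
      rw [nsmul_eq_mul]
      have : ((n : ℕ) : ZMod N) * ((s : ℤ) : ZMod N) = ((n * s : ℤ) : ZMod N) := by push_cast; ring
      rw [this, ZMod.intCast_zmod_eq_zero_iff_dvd]
      show ((n * s.natAbs : ℕ) : ℤ) ∣ _
      push_cast
      exact mul_dvd_mul_left _ ((abs_dvd _ _).2 dvd_rfl))
    (by
      rw [lift_comm, ← ofAdd_zsmul, ← ofAdd_zsmul, ← ofAdd_add, ← ofAdd_zero]
      congr 1
      rw [← hr, ← hs, zsmul_eq_mul, zsmul_eq_mul]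
      push_cast
      ring)
  apply Nat.dvd_antisymm
  · exact orderOf_dvd_of_pow_eq_one (of_pow_eq_one n w)
  · have h1 : orderOf (F (PresentedGroup.of (0 : Fin 2))) ∣
      orderOf (PresentedGroup.of (0 : Fin 2) : PresentedGroup (rels n w)) :=
      orderOf_map_dvd F _
    refine dvd_trans ?_ h1
    set d := orderOf (F (PresentedGroup.of (0 : Fin 2))) with hd
    have h2 : (F (PresentedGroup.of (0 : Fin 2))) ^ d = 1 := pow_orderOf_eq_one _
    rw [hF, ← ofAdd_nsmul, ← ofAdd_zero] at h2
    have h3 : (d : ZMod N) * ((s : ℤ) : ZMod N) = 0 := by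
      have := Multiplicative.ofAdd.injective h2
      rwa [nsmul_eq_mul] at this
    have h4 : ((d * s : ℤ) : ZMod N) = 0 := by
      push_cast
      exact h3
    rw [ZMod.intCast_zmod_eq_zero_iff_dvd] at h4
    have h5 : ((n * s.natAbs : ℕ) : ℤ) ∣ d * s := h4
    have h6 := Int.natAbs_dvd_natAbs.2 h5
    rw [Int.natAbs_mul, Int.natAbs_natCast, Int.natAbs_natCast] at h6
    exact Nat.dvd_of_mul_dvd_mul_right (Int.natAbs_pos.2 hs0) h6

/-- number of occurrences of a letter -/
def cnt (c : Fin 2 × Bool) (l : List (Fin 2 × Bool)) : ℕ :=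
  (l.flatMap (fun p => if p = c then [true] else [])).length

theorem primrec_cnt (c : Fin 2 × Bool) : Primrec (cnt c) := by
  have h : Primrec (fun p : Fin 2 × Bool => if p = c then [true] else []) :=
    Primrec.dom_finite _
  exact Primrec.list_length.comp (Primrec.list_flatMap (f := fun l : List (Fin 2 × Bool) => l)
    (g := fun _ p => if p = c then [true] else []) Primrec.id (Primrec.to₂ (h.comp Primrec.snd)))

theorem xsum_mk (l : List (Fin 2 × Bool)) :
    xsum (FreeGroup.mk l) = Multiplicative.ofAdd ((cnt (1, true) l : ℤ) - cnt (1, false) l) := by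
  induction l with
  | nil =>
    rw [← FreeGroup.one_eq_mk, map_one]
    rfl
  | cons p l ih =>
    have h2 : FreeGroup.mk (p :: l) = FreeGroup.mk [p] * FreeGroup.mk l := by
      rw [FreeGroup.mul_mk]; rfl
    have h3 : ∀ c, cnt c (p :: l) = (if p = c then 1 else 0) + cnt c l := by
      intro c
      unfold cnt
      rw [List.flatMap_cons, List.length_append]
      congr 1
      split_ifs <;> rfl
    rw [h2, map_mul, ih, h3, h3]
    rcases p with ⟨x, b⟩
    have h4 : FreeGroup.mk [(x, false)] = (FreeGroup.of x)⁻¹ := by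
      rw [FreeGroup.of, FreeGroup.inv_mk]; rfl
    have h5 : FreeGroup.mk [(x, true)] = FreeGroup.of x := rfl
    have h6 : ∀ y : Fin 2, xsum (FreeGroup.of y) = (![1, Multiplicative.ofAdd 1] : Fin 2 →
      Multiplicative ℤ) y := fun y => FreeGroup.lift_apply_of
    cases b
    · rw [h4, map_inv, h6]
      fin_cases x
      · simp
      · show (Multiplicative.ofAdd (1 : ℤ))⁻¹ * _ = _
        rw [← ofAdd_neg, ← ofAdd_add]
        congr 1
        simp
        ring
    · rw [h5, h6]
      fin_cases x
      · simp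
      · show (Multiplicative.ofAdd (1 : ℤ)) * _ = _
        rw [← ofAdd_add]
        congr 1
        simp
        ring

/-- the substitution on words -/
def gsub : Fin 2 → List (Fin 3 × Bool) := ![[(0, true)], [(1, true), (2, true)]]

/-- the substitution of the three letters by words -/
def g3 (i : Fin 3) : List (Fin 2 × Bool) :=
  List.replicate (i : ℕ) (1, true) ++ [(0, true)] ++ List.replicate (i : ℕ) (1, false)

theorem mk_g3 (i : Fin 3) : FreeGroup.mk (g3 i) = conj3 i := by
  fin_cases i <;> simp [g3, conj3, FreeGroup.of, FreeGroup.mul_mk, FreeGroup.inv_mk,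
    FreeGroup.invRev, pow_succ, List.replicate]

theorem lift_gsub (l : List (Fin 2 × Bool)) :
    FreeGroup.lift conj3 (FreeGroup.mk (subst gsub l)) = FreeGroup.lift star (FreeGroup.mk l) := by
  rw [mk_subst, lift_comp]
  congr 2
  ext1 i
  fin_cases i
  · show FreeGroup.lift conj3 (FreeGroup.of 0) = FreeGroup.of 0
    rw [FreeGroup.lift_apply_of]
    simp [conj3]
  · show FreeGroup.lift conj3 (FreeGroup.mk [(1, true), (2, true)]) = _
    have : FreeGroup.mk [((1 : Fin 3), true), (2, true)] = FreeGroup.of 1 * FreeGroup.of 2 := by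
      rfl
    rw [this, map_mul, FreeGroup.lift_apply_of, FreeGroup.lift_apply_of]
    simp only [conj3, star]
    show _ = FreeGroup.of 1 * FreeGroup.of 0 * FreeGroup.of 1 * FreeGroup.of 0 *
      (FreeGroup.of 1)⁻¹ * (FreeGroup.of 1)⁻¹
    have e1 : ((1 : Fin 3) : ℕ) = 1 := rfl
    have e2 : ((2 : Fin 3) : ℕ) = 2 := rfl
    rw [e1, e2]
    group

theorem T_iff (n : ℕ) (l : List (Fin 2 × Bool)) :
    T n l ↔ orderOf (PresentedGroup.of (0 : Fin 2) : PresentedGroup (rels n (FreeGroup.mk l))) = 1 :=
  orderOf_eq_one_iff.symm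

theorem T3_iff (n : ℕ) (l : List (Fin 3 × Bool)) :
    T3 n l ↔ orderOf (PresentedGroup.of (0 : Fin 2) :
      PresentedGroup (rels n (FreeGroup.lift conj3 (FreeGroup.mk l)))) = 1 :=
  orderOf_eq_one_iff.symm

theorem not_T3_nil (n : ℕ) (hn : 2 ≤ n) : ¬ T3 n [] := by
  intro h
  obtain ⟨F, hF, _⟩ := hom2 n (FreeGroup.lift conj3 (FreeGroup.mk []))
    (Multiplicative.ofAdd (1 : ZMod n)) 1
    (by rw [← ofAdd_nsmul, ← ofAdd_zero]; congr 1; simp)
    (by rw [← FreeGroup.one_eq_mk, map_one (FreeGroup.lift conj3)]; exact map_one _)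
  have h' : (PresentedGroup.of (0 : Fin 2) :
    PresentedGroup (rels n (FreeGroup.lift conj3 (FreeGroup.mk [])))) = 1 := h
  rw [h', map_one, ← ofAdd_zero] at hF
  have h1 : (0 : ZMod n) = 1 := Multiplicative.ofAdd.injective hF
  have : Nontrivial (ZMod n) := ZMod.nontrivial_iff.2 (by omega)
  exact zero_ne_one h1

theorem T_red_T3 (n : ℕ) (hn : 2 ≤ n) : ManyOneReducible (T n) (T3 n) := by
  refine ⟨fun l => if cnt (1, true) l = cnt (1, false) l then subst gsub l else [], ?_, ?_⟩
  · have hp : PrimrecPred (fun l => cnt (1, true) l = cnt (1, false) l) :=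
      Primrec.eq.comp (primrec_cnt _) (primrec_cnt _)
    exact (Primrec.ite hp (primrec_subst gsub) (Primrec.const [])).to_comp
  · intro l
    by_cases hl : cnt (1, true) l = cnt (1, false) l
    · have hx : xsum (FreeGroup.mk l) = 1 := by
        rw [xsum_mk, hl, sub_self]; rfl
      simp only [hl, if_true]
      rw [T_iff, T3_iff, lift_gsub, order_star n _ hx]
    · have hx : xsum (FreeGroup.mk l) ≠ 1 := by
        intro h
        rw [xsum_mk, ← ofAdd_zero] at h
        have := Multiplicative.ofAdd.injective h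
        omega
      simp only [hl, if_false]
      rw [T_iff, order_of_xsum_ne n _ hx]
      have := not_T3_nil n hn
      constructor
      · intro h; omega
      · intro h; exact absurd h this

theorem T3_red_T (n : ℕ) : ManyOneReducible (T3 n) (T n) := by
  refine ⟨subst g3, (primrec_subst g3).to_comp, ?_⟩
  intro l
  rw [T_iff, T3_iff, mk_subst]
  have : (fun x => FreeGroup.mk (g3 x)) = conj3 := funext mk_g3
  rw [this]

end Pool.Agent.H57.Lyn
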