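import Pool.Agent.H57.Lyn.Many
import Pool.Agent.H57.Lyn.Width

set_option autoImplicit false

/-! The number of unknowns does not matter. -/

namespace Pool.Agent.H57.Lyn

open Function

/-- the relators of the group `⟨a, x_1, .., x_k | a^n, w⟩`; the letter `0` is `a`, the letter `i`
is `x_i` -/
def relsK (n k : ℕ) (w : FreeGroup (Fin (k + 1))) : Set (FreeGroup (Fin (k + 1))) :=
  {FreeGroup.of 0 ^ n, w}

/-- the set of words `w` in `a, x_1, .., x_k` with `a = 1` in `⟨a, x_1, .., x_k | a^n, w⟩` -/
def TK (n k : ℕ) (l : List (Fin (k + 1) × Bool)) : Prop :=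
  (PresentedGroup.of (0 : Fin (k + 1)) : PresentedGroup (relsK n k (FreeGroup.mk l))) = 1

theorem map_cj {G H : Type} [Group G] [Group H] (f : G →* H) (a z : G) (j : ℕ) :
    f (cj a z j) = cj (f a) (f z) j := by
  simp [cj]

theorem map_uw {G H : Type} [Group G] [Group H] (f : G →* H) (k i : ℕ) (a z : G) :
    f (uw k i a z) = uw k i (f a) (f z) := by
  simp only [uw, map_mul, map_inv, map_cj]

/-- the substitution `a ↦ a`, `x_i ↦ U_i(a, z)` -/
def uwf (k : ℕ) : Fin (k + 1) → FreeGroup (Fin 2) :=
  Fin.cases (FreeGroup.of 0) (fun j : Fin k => uw k j (FreeGroup.of 0) (FreeGroup.of 1))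

theorem ofK_pow_eq_one (n k : ℕ) (w : FreeGroup (Fin (k + 1))) :
    (PresentedGroup.of (0 : Fin (k + 1)) : PresentedGroup (relsK n k w)) ^ n = 1 := by
  have : (FreeGroup.of 0 ^ n : FreeGroup (Fin (k + 1))) ∈ relsK n k w := Or.inl rfl
  have h := PresentedGroup.one_of_mem this
  rw [map_pow] at h
  exact h

theorem mkK_w_eq_one (n k : ℕ) (w : FreeGroup (Fin (k + 1))) :
    PresentedGroup.mk (relsK n k w) w = 1 := by
  have : w ∈ relsK n k w := Or.inr rfl
  exact PresentedGroup.one_of_mem this

theorem liftK_eq_one (n k : ℕ) (w : FreeGroup (Fin (k + 1))) :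
    FreeGroup.lift (fun i => (PresentedGroup.of i : PresentedGroup (relsK n k w))) w = 1 := by
  rw [lift_of_eq_mk, mkK_w_eq_one]

theorem lift2_eq_one (n : ℕ) (w : FreeGroup (Fin 2)) :
    FreeGroup.lift (fun i => (PresentedGroup.of i : PresentedGroup (rels n w))) w = 1 := by
  rw [lift_of_eq_mk, mk_w_eq_one]

theorem homK {H : Type} [Group H] (n k : ℕ) (w : FreeGroup (Fin (k + 1))) (f : Fin (k + 1) → H)
    (ha : f 0 ^ n = 1) (hw : FreeGroup.lift f w = 1) :
    ∃ F : PresentedGroup (relsK n k w) →* H, ∀ i, F (PresentedGroup.of i) = f i :=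
  exists_hom (FreeGroup.of 0 ^ n) w f (by rw [map_pow, FreeGroup.lift_apply_of]; exact ha) hw

theorem lift_uwf {H : Type} [Group H] (k : ℕ) (f : Fin 2 → H) (w : FreeGroup (Fin (k + 1))) :
    FreeGroup.lift f (FreeGroup.lift (uwf k) w) =
      FreeGroup.lift (Fin.cases (f 0) (fun j : Fin k => uw k j (f 0) (f 1)) :
        Fin (k + 1) → H) w := by
  rw [lift_comp]
  congr 2
  ext i
  induction i using Fin.cases with
  | zero =>
    show FreeGroup.lift f (FreeGroup.of 0) = f 0
    rw [FreeGroup.lift_apply_of]
  | succ j =>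
    show FreeGroup.lift f (uw k j (FreeGroup.of 0) (FreeGroup.of 1)) = uw k j (f 0) (f 1)
    rw [map_uw, FreeGroup.lift_apply_of, FreeGroup.lift_apply_of]

/-- The order of `a` does not change under the substitution `x_i ↦ U_i(a, z)`. -/
theorem order_uwf (n k : ℕ) (hk : 1 ≤ k) (w : FreeGroup (Fin (k + 1))) :
    orderOf (PresentedGroup.of (0 : Fin 2) : PresentedGroup (rels n (FreeGroup.lift (uwf k) w))) =
      orderOf (PresentedGroup.of (0 : Fin (k + 1)) : PresentedGroup (relsK n k w)) := by
  set a : PresentedGroup (relsK n k w) := PresentedGroup.of 0 with ha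
  set a' : PresentedGroup (rels n (FreeGroup.lift (uwf k) w)) := PresentedGroup.of 0 with ha'
  obtain ⟨κ, hκ⟩ := homK n k w
    (Fin.cases a' (fun j : Fin k => uw k j a' (PresentedGroup.of 1)) :
      Fin (k + 1) → PresentedGroup (rels n (FreeGroup.lift (uwf k) w)))
    (of_pow_eq_one n _)
    (by
      have := lift_uwf k (fun i => (PresentedGroup.of i :
        PresentedGroup (rels n (FreeGroup.lift (uwf k) w)))) w
      rw [lift2_eq_one] at this
      exact this.symm)
  have hκa : κ a = a' := hκ 0
  apply Nat.dvd_antisymm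
  · rw [← hκa]
    exact orderOf_map_dvd κ a
  · by_cases ha1 : a = 1
    · rw [ha1, orderOf_one]
      exact one_dvd _
    · obtain ⟨L, _, i, z, hi, hz⟩ := embedB a ha1 k hk (fun j => PresentedGroup.of j.succ)
      obtain ⟨lam, hla, _⟩ := hom2 n (FreeGroup.lift (uwf k) w) (i a) z
        (by rw [← map_pow, ofK_pow_eq_one, map_one])
        (by
          rw [lift_uwf]
          have e : (Fin.cases (![i a, z] 0) (fun j : Fin k => uw k j (![i a, z] 0) (![i a, z] 1)) :
              Fin (k + 1) → L) = fun j => i (PresentedGroup.of j) := by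
            ext j
            induction j using Fin.cases with
            | zero => rfl
            | succ j => exact (hz j).symm
          rw [e, ← map_lift, liftK_eq_one, map_one])
      rw [← orderOf_injective i hi a, ← hla]
      exact orderOf_map_dvd lam a'

theorem TK_iff (n k : ℕ) (l : List (Fin (k + 1) × Bool)) :
    TK n k l ↔ orderOf (PresentedGroup.of (0 : Fin (k + 1)) :
      PresentedGroup (relsK n k (FreeGroup.mk l))) = 1 :=
  orderOf_eq_one_iff.symm

/-- words for the substitution -/
def uwl (k : ℕ) (i : Fin (k + 1)) : List (Fin 2 × Bool) := (uwf k i).toWord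

theorem TK_red_T (n k : ℕ) (hk : 1 ≤ k) : ManyOneReducible (TK n k) (T n) := by
  refine ⟨subst (uwl k), (primrec_subst (uwl k)).to_comp, ?_⟩
  intro l
  rw [T_iff, TK_iff, mk_subst]
  have : (fun x => FreeGroup.mk (uwl k x)) = uwf k := funext (fun x => FreeGroup.mk_toWord)
  rw [this, order_uwf n k hk]

/-- inclusion of the two letters -/
def incl (k : ℕ) (hk : 1 ≤ k) : Fin 2 → Fin (k + 1) := ![0, ⟨1, by omega⟩]

theorem T_red_TK (n k : ℕ) (hk : 1 ≤ k) : ManyOneReducible (T n) (TK n k) := by
  refine ⟨subst (fun i => [(incl k hk i, true)]), (primrec_subst _).to_comp, ?_⟩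
  intro l
  show _ = _ ↔ _ = _
  have e : FreeGroup.mk (subst (fun i => [(incl k hk i, true)]) l) =
      FreeGroup.lift (fun i => FreeGroup.of (incl k hk i)) (FreeGroup.mk l) := mk_subst _ _
  rw [e]
  set w : FreeGroup (Fin 2) := FreeGroup.mk l with hw
  constructor
  · intro h
    obtain ⟨F, hF, -⟩ := hom2 n w
      (PresentedGroup.of 0 : PresentedGroup (relsK n k
        (FreeGroup.lift (fun i => FreeGroup.of (incl k hk i)) w)))
      (PresentedGroup.of ⟨1, by omega⟩) (ofK_pow_eq_one n k _)
      (by
        have h1 := liftK_eq_one n k (FreeGroup.lift (fun i => FreeGroup.of (incl k hk i)) w)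
        rw [lift_comp] at h1
        rw [← h1]
        congr 2
        ext i
        rw [FreeGroup.lift_apply_of]
        fin_cases i <;> rfl)
    rw [← hF, h, map_one]
  · intro h
    obtain ⟨F, hF⟩ := homK n k (FreeGroup.lift (fun i => FreeGroup.of (incl k hk i)) w)
      (fun i => if i = 0 then (PresentedGroup.of 0 : PresentedGroup (rels n w)) else
        if i = ⟨1, by omega⟩ then PresentedGroup.of 1 else 1)
      (by
        rw [if_pos rfl]
        exact of_pow_eq_one n w)
      (by
        rw [lift_comp]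
        rw [← lift2_eq_one n w]
        congr 2
        ext i
        rw [FreeGroup.lift_apply_of]
        fin_cases i
        · exact if_pos rfl
        · have h1 : (⟨1, by omega⟩ : Fin (k + 1)) ≠ 0 := by
            intro h; exact absurd (congrArg Fin.val h) (by simp)
          show (if (⟨1, by omega⟩ : Fin (k + 1)) = 0 then _ else _) = _
          rw [if_neg h1]
          exact if_pos rfl)
    have h2 := hF 0
    rw [h, map_one, if_pos rfl] at h2
    exact h2.symm

end Pool.Agent.H57.Lyn
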