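import Pool.Agent.H57.Lyn.Tr
import Pool.Agent.H57.Lyn.Pr

set_option autoImplicit false

/-! Triviality of another generator reduces to triviality of `a`. -/

namespace Pool.Agent.H57.Lyn

open Function Monoid

/-- amalgamating two elements of the same order -/
theorem amalgam_elt {B D : Type} [Group B] [Group D] (b : B) (d : D)
    (h : orderOf b = orderOf d) :
    ∃ (H : Type) (_ : Group H) (i : B →* H) (j : D →* H), Injective i ∧ Injective j ∧
      i b = j d := by
  obtain ⟨P, hP, hP1⟩ := cyc b (orderOf b) rfl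
  obtain ⟨Q, hQ, hQ1⟩ := cyc d (orderOf b) h.symm
  obtain ⟨H, _, i, j, hi, hj, hij, -⟩ := amalgam_exists (C := Unit) P Q hP hQ 1 1
    (fun c hc => absurd (Subsingleton.elim c 1) hc) (fun c hc => absurd (Subsingleton.elim c 1) hc)
  refine ⟨H, inferInstance, i, j, hi, hj, ?_⟩
  have := hij (Multiplicative.ofAdd 1)
  rw [hP1, hQ1] at this
  exact this

/-- conjugating two elements of the same order -/
theorem conj_elt {B : Type} [Group B] (b c : B) (h : orderOf b = orderOf c) :
    ∃ (L : Type) (_ : Group L) (i : B →* L) (z : L), Injective i ∧ z * i b * z⁻¹ = i c := by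
  obtain ⟨P, hP, hP1⟩ := cyc b (orderOf b) rfl
  obtain ⟨Q, hQ, hQ1⟩ := cyc c (orderOf b) h.symm
  obtain ⟨L, _, i, z, hi, hz⟩ := hnn_exists P Q hP hQ
  refine ⟨L, inferInstance, i, z, hi, ?_⟩
  have := hz (Multiplicative.ofAdd 1)
  rw [hP1, hQ1] at this
  exact this

/-- if some unknown has exponent sum not zero then `a` has order `n` -/
theorem order_of_esum_ne (n k : ℕ) (w : FreeGroup (Fin (k + 1))) (j : Fin k)
    (hw : esum j.succ w ≠ 1) :
    orderOf (PresentedGroup.of (0 : Fin (k + 1)) : PresentedGroup (relsK n k w)) = n := by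
  set s : ℤ := Multiplicative.toAdd (esum j.succ w) with hs
  set r : ℤ := Multiplicative.toAdd (esum (0 : Fin (k + 1)) w) with hr
  have hs0 : s ≠ 0 := by
    intro h
    apply hw
    rw [← ofAdd_toAdd (esum j.succ w), ← hs, h]
    rfl
  let N : ℕ := n * s.natAbs
  obtain ⟨F, hF⟩ := homK n k w
    (fun i => (if i = 0 then Multiplicative.ofAdd ((s : ℤ) : ZMod N) else 1) *
      (if i = j.succ then Multiplicative.ofAdd ((-r : ℤ) : ZMod N) else 1))
    (by
      have hj : (0 : Fin (k + 1)) ≠ j.succ := (Fin.succ_ne_zero j).symm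
      rw [if_pos rfl, if_neg hj, mul_one, ← ofAdd_nsmul, ← ofAdd_zero]
      congr 1
      rw [nsmul_eq_mul]
      have : ((n : ℕ) : ZMod N) * ((s : ℤ) : ZMod N) = ((n * s : ℤ) : ZMod N) := by push_cast; ring
      rw [this, ZMod.intCast_zmod_eq_zero_iff_dvd]
      show ((n * s.natAbs : ℕ) : ℤ) ∣ _
      push_cast
      exact mul_dvd_mul_left _ ((abs_dvd _ _).2 dvd_rfl))
    (by
      rw [lift_double, ← ofAdd_zsmul, ← ofAdd_zsmul, ← ofAdd_add, ← ofAdd_zero]
      congr 1
      rw [← hr, ← hs, zsmul_eq_mul, zsmul_eq_mul]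
      push_cast
      ring)
  have hF0 : F (PresentedGroup.of 0) = Multiplicative.ofAdd ((s : ℤ) : ZMod N) := by
    have hj : (0 : Fin (k + 1)) ≠ j.succ := (Fin.succ_ne_zero j).symm
    rw [hF, if_pos rfl, if_neg hj, mul_one]
  apply Nat.dvd_antisymm
  · exact orderOf_dvd_of_pow_eq_one (ofK_pow_eq_one n k w)
  · have h1 : orderOf (F (PresentedGroup.of (0 : Fin (k + 1)))) ∣
      orderOf (PresentedGroup.of (0 : Fin (k + 1)) : PresentedGroup (relsK n k w)) :=
      orderOf_map_dvd F _
    refine dvd_trans ?_ h1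
    set d := orderOf (F (PresentedGroup.of (0 : Fin (k + 1)))) with hd
    have h2 : (F (PresentedGroup.of (0 : Fin (k + 1)))) ^ d = 1 := pow_orderOf_eq_one _
    rw [hF0, ← ofAdd_nsmul, ← ofAdd_zero] at h2
    have h3 : (d : ZMod N) * ((s : ℤ) : ZMod N) = 0 := by
      have := Multiplicative.ofAdd.injective h2
      rwa [nsmul_eq_mul] at this
    have h4 : ((d * s : ℤ) : ZMod N) = 0 := by
      push_cast
      exact h3
    rw [ZMod.intCast_zmod_eq_zero_iff_dvd] at h4
    have h5 : ((n * s.natAbs : ℕ) : ℤ) ∣ d * s := h4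
    have h6 := Int.natAbs_dvd_natAbs.2 h5
    rw [Int.natAbs_mul, Int.natAbs_natCast, Int.natAbs_natCast] at h6
    exact Nat.dvd_of_mul_dvd_mul_right (Int.natAbs_pos.2 hs0) h6

/-- the set of words `w` in `a, x_1, .., x_(k+1)` with `x_1 = 1` in
`⟨a, x_1, .., x_(k+1) | a^n, w⟩` -/
def XK (n k : ℕ) (l : List (Fin (k + 2) × Bool)) : Prop :=
  (PresentedGroup.of (1 : Fin (k + 2)) : PresentedGroup (relsK n (k + 1) (FreeGroup.mk l))) = 1

/-- the substitution `a ↦ a`, `x_1 ↦ s(z a z^(-1), y)`, `x_i ↦ x_i` for `i ≥ 2` -/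
def gX (n k : ℕ) : Fin (k + 2) → FreeGroup (Fin (k + 3)) :=
  Fin.cases (FreeGroup.of 0) (Fin.cases
    (sw n (FreeGroup.of 2 * FreeGroup.of 0 * (FreeGroup.of 2)⁻¹) (FreeGroup.of 1))
    (fun j : Fin k => FreeGroup.of j.succ.succ.succ))

theorem lift_gX {H : Type} [Group H] (n k : ℕ) (f : Fin (k + 3) → H)
    (w : FreeGroup (Fin (k + 2))) :
    FreeGroup.lift f (FreeGroup.lift (gX n k) w) =
      FreeGroup.lift (Fin.cases (f 0) (Fin.cases (sw n (f 2 * f 0 * (f 2)⁻¹) (f 1))
        (fun j : Fin k => f j.succ.succ.succ)) : Fin (k + 2) → H) w := by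
  rw [lift_comp]
  congr 2
  ext i
  induction i using Fin.cases with
  | zero =>
    show FreeGroup.lift f (FreeGroup.of 0) = f 0
    rw [FreeGroup.lift_apply_of]
  | succ i =>
    induction i using Fin.cases with
    | zero =>
      show FreeGroup.lift f (sw n (FreeGroup.of 2 * FreeGroup.of 0 * (FreeGroup.of 2)⁻¹)
        (FreeGroup.of 1)) = sw n (f 2 * f 0 * (f 2)⁻¹) (f 1)
      rw [map_sw, map_mul, map_mul, map_inv]
      simp only [FreeGroup.lift_apply_of]
    | succ j =>
      show FreeGroup.lift f (FreeGroup.of j.succ.succ.succ) = f j.succ.succ.succ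
      rw [FreeGroup.lift_apply_of]

theorem X_iff (n k : ℕ) (hn : 2 ≤ n) (w : FreeGroup (Fin (k + 2))) (j : Fin (k + 1))
    (hw : esum j.succ w ≠ 1) :
    ((PresentedGroup.of (1 : Fin (k + 2)) : PresentedGroup (relsK n (k + 1) w)) = 1) ↔
      (PresentedGroup.of (0 : Fin (k + 3)) :
        PresentedGroup (relsK n (k + 2) (FreeGroup.lift (gX n k) w))) = 1 := by
  constructor
  · intro h
    set a' : PresentedGroup (relsK n (k + 2) (FreeGroup.lift (gX n k) w)) :=
      PresentedGroup.of 0 with ha'
    set y' : PresentedGroup (relsK n (k + 2) (FreeGroup.lift (gX n k) w)) :=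
      PresentedGroup.of 1 with hy'
    set z' : PresentedGroup (relsK n (k + 2) (FreeGroup.lift (gX n k) w)) :=
      PresentedGroup.of 2 with hz'
    obtain ⟨F, hF⟩ := homK n (k + 1) w
      (Fin.cases a' (Fin.cases (sw n (z' * a' * z'⁻¹) y')
        (fun j : Fin k => PresentedGroup.of j.succ.succ.succ)) : Fin (k + 2) → _)
      (ofK_pow_eq_one n (k + 2) _)
      (by
        rw [← lift_gX n k (fun i => PresentedGroup.of i)]
        exact liftK_eq_one n (k + 2) _)
    have h1 : F (PresentedGroup.of 1) = sw n (z' * a' * z'⁻¹) y' := hF 1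
    rw [h, map_one] at h1
    have h2 : (z' * a' * z'⁻¹) ^ n = 1 := by
      rw [conj_pow, ofK_pow_eq_one, mul_one, mul_inv_cancel]
    have h3 := sw_collapse n hn (z' * a' * z'⁻¹) y' h2 h1.symm
    have h4 : a' = z'⁻¹ * (z' * a' * z'⁻¹) * z' := by group
    rw [h4, h3]; group
  · intro h
    by_contra hne
    set x : PresentedGroup (relsK n (k + 1) w) := PresentedGroup.of 1 with hx
    have hm : orderOf x ≠ 1 := fun h1 => hne (orderOf_eq_one_iff.1 h1)
    obtain ⟨K, _, a1, y1, ha1, hs1⟩ := exists_value n hn (orderOf x) hm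
    obtain ⟨H, _, i, j', hi, hj', hij⟩ := amalgam_elt x (sw n a1 y1) hs1.symm
    have ha0 : orderOf (PresentedGroup.of (0 : Fin (k + 2)) :
        PresentedGroup (relsK n (k + 1) w)) = n := order_of_esum_ne n (k + 1) w j hw
    obtain ⟨L, _, i2, z, hi2, hz⟩ := conj_elt (i (PresentedGroup.of 0)) (j' a1)
      (by rw [orderOf_injective i hi, ha0, orderOf_injective j' hj', ha1])
    obtain ⟨F, hF⟩ := homK n (k + 2) (FreeGroup.lift (gX n k) w)
      (Fin.cases (i2 (i (PresentedGroup.of 0))) (Fin.cases (i2 (j' y1)) (Fin.cases z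
        (fun j : Fin k => i2 (i (PresentedGroup.of j.succ.succ))))) : Fin (k + 3) → L)
      (by
        show (i2 (i (PresentedGroup.of 0))) ^ n = 1
        rw [← map_pow, ← map_pow, ofK_pow_eq_one, map_one, map_one])
      (by
        rw [lift_gX]
        have e0 := liftK_eq_one n (k + 1) w
        have e1 := congrArg (fun t => i2 (i t)) e0
        simp only [map_one] at e1
        rw [map_lift, map_lift] at e1
        rw [← e1]
        congr 2
        ext q
        induction q using Fin.cases with
        | zero => rfl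
        | succ q =>
          induction q using Fin.cases with
          | zero =>
            show sw n (z * i2 (i (PresentedGroup.of 0)) * z⁻¹) (i2 (j' y1)) = i2 (i x)
            rw [hz, hij, ← map_sw, ← map_sw]
          | succ q => rfl)
    have h1 : F (PresentedGroup.of 0) = i2 (i (PresentedGroup.of 0)) := hF 0
    rw [h, map_one] at h1
    have h2 : orderOf (i2 (i (PresentedGroup.of (0 : Fin (k + 2)) :
        PresentedGroup (relsK n (k + 1) w)))) = n := by
      rw [orderOf_injective i2 hi2, orderOf_injective i hi, ha0]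
    rw [← h1, orderOf_one] at h2
    omega

/-- all exponent sums of the unknowns are zero -/
def Zer (k : ℕ) (l : List (Fin (k + 2) × Bool)) : Prop :=
  ∀ j : Fin (k + 1), cntG (j.succ, true) l = cntG (j.succ, false) l

instance (k : ℕ) : DecidablePred (Zer k) := fun l => by unfold Zer; infer_instance

/-- words for the substitution -/
def gXl (n k : ℕ) (i : Fin (k + 2)) : List (Fin (k + 3) × Bool) := (gX n k i).toWord

theorem esum_eq_one_iff {α : Type} [DecidableEq α] (c : α) (l : List (α × Bool)) :
    esum c (FreeGroup.mk l) = 1 ↔ cntG (c, true) l = cntG (c, false) l := by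
  rw [esum_mk]
  constructor
  · intro h
    have := Multiplicative.ofAdd.injective (h.trans ofAdd_zero.symm)
    omega
  · intro h
    rw [h, sub_self]; rfl

theorem XK_red_TK (n k : ℕ) (hn : 2 ≤ n) : ManyOneReducible (XK n k) (TK n (k + 2)) := by
  refine ⟨fun l => if Zer k l then [] else subst (gXl n k) l, ?_, ?_⟩
  · have h1 : PrimrecPred (Zer k) := by
      apply primrecPred_forall
      intro i
      exact Primrec.eq.comp (primrec_cntG _) (primrec_cntG _)
    exact (Primrec.ite h1 (Primrec.const []) (primrec_subst (gXl n k))).to_comp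
  · intro l
    by_cases hl : Zer k l
    · simp only [hl, if_true]
      have hno : ¬ XK n k l := by
        intro h
        obtain ⟨F, hF⟩ := homK n (k + 1) (FreeGroup.mk l)
          (fun i => if i = 1 then Multiplicative.ofAdd (1 : ℤ) else 1)
          (by rw [if_neg (by simp), one_pow])
          (by
            rw [lift_single]
            have h1 : esum (1 : Fin (k + 2)) (FreeGroup.mk l) = 1 :=
              (esum_eq_one_iff _ _).2 (hl 0)
            rw [h1]
            rfl)
        have h1 := hF 1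
        have h2 : (PresentedGroup.of (1 : Fin (k + 2)) :
          PresentedGroup (relsK n (k + 1) (FreeGroup.mk l))) = 1 := h
        rw [h2, map_one, if_pos rfl] at h1
        have h3 := Multiplicative.ofAdd.injective (ofAdd_zero.trans h1)
        exact absurd h3 (by norm_num)
      exact ⟨fun h => absurd h hno, fun h => absurd h (not_TK_nil n (k + 2) hn)⟩
    · simp only [hl, if_false]
      have hl' : ∃ j : Fin (k + 1), esum j.succ (FreeGroup.mk l) ≠ 1 := by
        unfold Zer at hl
        push Not at hl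
        obtain ⟨j, hj⟩ := hl
        exact ⟨j, fun h => hj ((esum_eq_one_iff _ _).1 h)⟩
      obtain ⟨j, hj⟩ := hl'
      have e : FreeGroup.mk (subst (gXl n k) l) = FreeGroup.lift (gX n k) (FreeGroup.mk l) := by
        rw [mk_subst]
        congr 2
        funext i
        exact FreeGroup.mk_toWord
      have h1 := X_iff n k hn (FreeGroup.mk l) j hj
      unfold XK TK
      rw [e]
      exact h1

theorem XK_red_T (n k : ℕ) (hn : 2 ≤ n) : ManyOneReducible (XK n k) (T n) :=
  (XK_red_TK n k hn).trans (TK_red_T n (k + 2) (by omega))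

end Pool.Agent.H57.Lyn
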